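import Mathlib

set_option autoImplicit false

/-!
Kernel friendly finite checks for level maps between words.
-/

namespace Pool.Agent.H549R3.Chk

/-- bounded conjunction -/
def allB (n : ℕ) (f : ℕ → Bool) : Bool := Nat.rec true (fun k ih => and (f k) ih) n

theorem allB_spec (n : ℕ) (f : ℕ → Bool) (h : allB n f = true) : ∀ k < n, f k = true := by
  induction n with
  | zero => intro k hk; omega
  | succ n ih =>
    intro k hk
    have h' : (f n && allB n f) = true := h
    rw [Bool.and_eq_true] at h'
    rcases Nat.lt_succ_iff_lt_or_eq.1 hk with h1 | h1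
    · exact ih h'.2 k h1
    · rw [h1]; exact h'.1

/-- bounded disjunction -/
def anyB (n : ℕ) (f : ℕ → Bool) : Bool := Nat.rec false (fun k ih => or (f k) ih) n

theorem anyB_spec (n : ℕ) (f : ℕ → Bool) (h : anyB n f = true) : ∃ k < n, f k = true := by
  induction n with
  | zero => exact absurd h (by simp [anyB])
  | succ n ih =>
    have h' : (f n || anyB n f) = true := h
    rw [Bool.or_eq_true] at h'
    rcases h' with h1 | h1
    · exact ⟨n, by omega, h1⟩
    · obtain ⟨k, hk, hf⟩ := ih h1
      exact ⟨k, by omega, hf⟩

end Pool.Agent.H549R3.Chk
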