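import Mathlib
import Pool.Agent.H549R3.Chk

set_option autoImplicit false

/-!
Descent of four term progression templates along uniform maps of words.
-/

namespace Pool.Agent.H549R3.Level

open Finset

/-- Prefix sums. -/
def S (y : ℕ → ℕ) (n : ℕ) : ℕ := ∑ k ∈ range n, y k

theorem S_succ (y : ℕ → ℕ) (n : ℕ) : S y (n + 1) = S y n + y n := by
  simp [S, sum_range_succ]

/-- Marked value of a position. -/
def V (y : ℕ → ℕ) (u : ℕ → ℕ) (j : ℕ) : ℕ := S y j + u (y j)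

/-- Four positions in progression, with letters in the mask, whose marked values are in
progression. -/
def Tpl (y : ℕ → ℕ) (mk : ℕ → Bool) (u : ℕ → ℕ) (j q : ℕ) : Prop :=
  (mk (y j) = true ∧ mk (y (j + q)) = true ∧ mk (y (j + 2 * q)) = true ∧
    mk (y (j + 3 * q)) = true) ∧
  V y u j + V y u (j + 2 * q) = 2 * V y u (j + q) ∧
  V y u (j + q) + V y u (j + 3 * q) = 2 * V y u (j + 2 * q)

/-- Data of a uniform map. -/
structure Map where
  /-- number of upper letters -/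
  n : ℕ
  /-- length of the images -/
  L : ℕ
  /-- weight step -/
  al : ℕ
  /-- base weight -/
  be : ℕ
  /-- images -/
  G : ℕ → ℕ → ℕ
  /-- prefix sums of the images -/
  P : ℕ → ℕ → ℕ

/-- Correctness of the data. -/
structure Map.Ok (M : Map) : Prop where
  L0 : 0 < M.L
  al0 : 0 < M.al
  P0 : ∀ a < M.n, M.P a 0 = 0
  Ps : ∀ a < M.n, ∀ r < M.L, M.P a (r + 1) = M.P a r + M.G a r
  PL : ∀ a < M.n, M.P a M.L = M.be + M.al * a

/-- `y` is the image of `x`. -/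
def Map.Img (M : Map) (x y : ℕ → ℕ) : Prop :=
  (∀ i, x i < M.n) ∧ ∀ m r, r < M.L → y (M.L * m + r) = M.G (x m) r

theorem S_image (M : Map) (h : M.Ok) (x y : ℕ → ℕ) (hi : M.Img x y) (m r : ℕ) (hr : r ≤ M.L) :
    S y (M.L * m + r) = M.be * m + M.al * S x m + M.P (x m) r := by
  obtain ⟨hx, hy⟩ := hi
  have inner : ∀ m, S y (M.L * m) = M.be * m + M.al * S x m →
      ∀ r, r ≤ M.L → S y (M.L * m + r) = M.be * m + M.al * S x m + M.P (x m) r := by
    intro m hm r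
    induction r with
    | zero => intro _; simp [hm, h.P0 _ (hx m)]
    | succ r ih =>
      intro hr
      have h1 := ih (by omega)
      rw [← Nat.add_assoc, S_succ, h1, hy m r (by omega), h.Ps _ (hx m) _ (by omega)]
      ring
  have base : ∀ m, S y (M.L * m) = M.be * m + M.al * S x m := by
    intro m
    induction m with
    | zero => simp [S]
    | succ m ih =>
      have h1 := inner m ih M.L (le_refl _)
      rw [Nat.mul_succ, h1, S_succ, h.PL _ (hx m)]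
      ring
  exact inner m (base m) r hr

/-- value of a marked point of an image -/
def Map.w (M : Map) (u : ℕ → ℕ) (a r : ℕ) : ℕ := M.P a r + u (M.G a r)

theorem V_image (M : Map) (h : M.Ok) (x y : ℕ → ℕ) (hi : M.Img x y) (u : ℕ → ℕ) (m r : ℕ)
    (hr : r < M.L) :
    V y u (M.L * m + r) = M.be * m + M.al * S x m + M.w u (x m) r := by
  unfold V Map.w
  rw [S_image M h x y hi m r hr.le, hi.2 m r hr]
  ring

/-- A tuple of four marked points, in progression modulo the lattice, comes from the upper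
level. -/
def Good (M : Map) (nU : ℕ) (mkU : ℕ → ℕ → Bool) (uU : ℕ → ℕ → ℕ) (u : ℕ → ℕ)
    (a0 r0 a1 r1 a2 r2 a3 r3 c2 c3 : ℕ) : Prop :=
  (∃ s0 < 2, ∃ s1 < 2, ∃ s2 < 2, ∃ s3 < 2, s0 + s2 + c2 = 2 * s1 + 1 ∧ s1 + s3 + c3 = 2 * s2 + 1 ∧
    M.w u a0 r0 + M.w u a2 r2 + 2 * (s1 * (M.be + M.al * a1)) =
      2 * M.w u a1 r1 + s0 * (M.be + M.al * a0) + s2 * (M.be + M.al * a2) ∧
    M.w u a1 r1 + M.w u a3 r3 + 2 * (s2 * (M.be + M.al * a2)) =
      2 * M.w u a2 r2 + s1 * (M.be + M.al * a1) + s3 * (M.be + M.al * a3)) ∨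
  (∃ k < nU, (mkU k a0 = true ∧ mkU k a1 = true ∧ mkU k a2 = true ∧ mkU k a3 = true) ∧
    c2 = 1 ∧ c3 = 1 ∧
    M.w u a0 r0 + M.w u a2 r2 + 2 * (M.al * uU k a1) =
      2 * M.w u a1 r1 + M.al * uU k a0 + M.al * uU k a2 ∧
    M.w u a1 r1 + M.w u a3 r3 + 2 * (M.al * uU k a2) =
      2 * M.w u a2 r2 + M.al * uU k a1 + M.al * uU k a3)

/-- All tuples in progression modulo the lattice are good. -/
def AllGood (M : Map) (nU : ℕ) (mkU : ℕ → ℕ → Bool) (uU : ℕ → ℕ → ℕ) (mk : ℕ → Bool) (u : ℕ → ℕ)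
    (strict : Bool) : Prop :=
  ∀ a0 r0 a1 r1 a2 r2 a3 r3 c2 c3 : ℕ, a0 < M.n → a1 < M.n → a2 < M.n → a3 < M.n →
    r0 < M.L → r1 < M.L → r2 < M.L → r3 < M.L →
    mk (M.G a0 r0) = true → mk (M.G a1 r1) = true → mk (M.G a2 r2) = true →
    mk (M.G a3 r3) = true →
    r0 + r2 + M.L * c2 = 2 * r1 + M.L → r1 + r3 + M.L * c3 = 2 * r2 + M.L →
    M.w u a0 r0 + M.w u a2 r2 + M.be * c2 ≡ 2 * M.w u a1 r1 + M.be [MOD M.al] →
    M.w u a1 r1 + M.w u a3 r3 + M.be * c3 ≡ 2 * M.w u a2 r2 + M.be [MOD M.al] →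
    (strict = true → r0 = r1) ∧ Good M nU mkU uU u a0 r0 a1 r1 a2 r2 a3 r3 c2 c3

/-- carry of a second difference -/
theorem carry (L m0 m1 m2 r0 r1 r2 : ℕ) (h0 : r0 < L) (h1 : r1 < L) (h2 : r2 < L)
    (h : (L * m0 + r0) + (L * m2 + r2) = 2 * (L * m1 + r1)) :
    ∃ c, m0 + m2 + 1 = 2 * m1 + c ∧ r0 + r2 + L * c = 2 * r1 + L := by
  have hle : 2 * m1 ≤ m0 + m2 + 1 := by
    by_contra hcon
    push Not at hcon
    have h3 : L * (m0 + m2 + 2) ≤ L * (2 * m1) := Nat.mul_le_mul_left L (by omega)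
    have h4 : L * (m0 + m2 + 2) = L * m0 + L * m2 + 2 * L := by ring
    have h5 : L * (2 * m1) = 2 * (L * m1) := by ring
    omega
  refine ⟨m0 + m2 + 1 - 2 * m1, by omega, ?_⟩
  obtain ⟨c, hc⟩ := Nat.exists_eq_add_of_le hle
  have : m0 + m2 + 1 - 2 * m1 = c := by omega
  rw [this]
  have h3 : L * (m0 + m2 + 1) = L * (2 * m1 + c) := by rw [hc]
  have h4 : L * (m0 + m2 + 1) = L * m0 + L * m2 + L := by ring
  have h5 : L * (2 * m1 + c) = 2 * (L * m1) + L * c := by ring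
  omega

theorem S_shift (x : ℕ → ℕ) (m s : ℕ) (hs : s < 2) : S x (m + s) = S x m + s * x m := by
  have : s = 0 ∨ s = 1 := by omega
  rcases this with rfl | rfl
  · simp
  · rw [S_succ]; ring

theorem key (al be m0 m1 m2 S0 S1 S2 w0 w1 w2 c s0 s1 s2 a0 a1 a2 : ℕ) (hal : 0 < al)
    (hm : m0 + m2 + 1 = 2 * m1 + c)
    (hV : (be * m0 + al * S0 + w0) + (be * m2 + al * S2 + w2) = 2 * (be * m1 + al * S1 + w1))
    (hs : s0 + s2 + c = 2 * s1 + 1)
    (hw : w0 + w2 + 2 * (s1 * (be + al * a1)) =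
      2 * w1 + s0 * (be + al * a0) + s2 * (be + al * a2)) :
    (S0 + s0 * a0) + (S2 + s2 * a2) = 2 * (S1 + s1 * a1) := by
  zify at *
  have hal' : (al : ℤ) ≠ 0 := by positivity
  apply mul_left_cancel₀ hal'
  linear_combination hV - hw - be * hm - be * hs

theorem key2 (al be m0 m1 m2 S0 S1 S2 w0 w1 w2 u0 u1 u2 : ℕ) (hal : 0 < al)
    (hm : m0 + m2 = 2 * m1)
    (hV : (be * m0 + al * S0 + w0) + (be * m2 + al * S2 + w2) = 2 * (be * m1 + al * S1 + w1))
    (hw : w0 + w2 + 2 * (al * u1) = 2 * w1 + al * u0 + al * u2) :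
    (S0 + u0) + (S2 + u2) = 2 * (S1 + u1) := by
  zify at *
  have hal' : (al : ℤ) ≠ 0 := by positivity
  apply mul_left_cancel₀ hal'
  linear_combination hV - hw - be * hm

theorem key3 (al be m0 m1 m2 S0 S1 S2 w0 w1 w2 c : ℕ)
    (hm : m0 + m2 + 1 = 2 * m1 + c)
    (hV : (be * m0 + al * S0 + w0) + (be * m2 + al * S2 + w2) = 2 * (be * m1 + al * S1 + w1)) :
    w0 + w2 + be * c ≡ 2 * w1 + be [MOD al] := by
  have h : w0 + w2 + be * c + al * (S0 + S2) = 2 * w1 + be + al * (2 * S1) := by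
    zify at *
    linear_combination hV - be * hm
  have h1 : w0 + w2 + be * c + al * (S0 + S2) ≡ w0 + w2 + be * c [MOD al] := by
    unfold Nat.ModEq; simp
  have h2 : 2 * w1 + be + al * (2 * S1) ≡ 2 * w1 + be [MOD al] := by
    unfold Nat.ModEq; simp
  rw [h] at h1
  exact h1.symm.trans h2

/-- Main descent lemma. -/
theorem descent (M : Map) (h : M.Ok) (nU : ℕ) (hnU : 0 < nU) (mkU : ℕ → ℕ → Bool)
    (uU : ℕ → ℕ → ℕ)
    (hz : ∀ a, mkU 0 a = true ∧ uU 0 a = 0) (mk : ℕ → Bool) (u : ℕ → ℕ) (strict : Bool)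
    (hg : AllGood M nU mkU uU mk u strict) (x y : ℕ → ℕ) (hi : M.Img x y) (j q : ℕ)
    (hq : 0 < q) (hL : strict = false → M.L ≤ q) (ht : Tpl y mk u j q) :
    ∃ k < nU, ∃ j' q', Tpl x (mkU k) (uU k) j' q' ∧ q / M.L ≤ q' + 1 ∧
      (strict = true → q = M.L * q') := by
  obtain ⟨⟨t0, t1, t2, t3⟩, e1, e2⟩ := ht
  have hL0 := h.L0
  set L := M.L with hLdef
  obtain ⟨m0, r0, hr0, en0⟩ : ∃ m r, r < L ∧ L * m + r = j :=
    ⟨j / L, j % L, Nat.mod_lt _ hL0, Nat.div_add_mod _ _⟩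
  obtain ⟨m1, r1, hr1, en1⟩ : ∃ m r, r < L ∧ L * m + r = j + q :=
    ⟨(j + q) / L, (j + q) % L, Nat.mod_lt _ hL0, Nat.div_add_mod _ _⟩
  obtain ⟨m2, r2, hr2, en2⟩ : ∃ m r, r < L ∧ L * m + r = j + 2 * q :=
    ⟨(j + 2 * q) / L, (j + 2 * q) % L, Nat.mod_lt _ hL0, Nat.div_add_mod _ _⟩
  obtain ⟨m3, r3, hr3, en3⟩ : ∃ m r, r < L ∧ L * m + r = j + 3 * q :=
    ⟨(j + 3 * q) / L, (j + 3 * q) % L, Nat.mod_lt _ hL0, Nat.div_add_mod _ _⟩
  have V0 := V_image M h x y hi u m0 r0 hr0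
  have V1 := V_image M h x y hi u m1 r1 hr1
  have V2 := V_image M h x y hi u m2 r2 hr2
  have V3 := V_image M h x y hi u m3 r3 hr3
  have G0 := hi.2 m0 r0 hr0
  have G1 := hi.2 m1 r1 hr1
  have G2 := hi.2 m2 r2 hr2
  have G3 := hi.2 m3 r3 hr3
  rw [← hLdef, en0] at V0 G0
  rw [← hLdef, en1] at V1 G1
  rw [← hLdef, en2] at V2 G2
  rw [← hLdef, en3] at V3 G3
  rw [V0, V1, V2] at e1
  rw [V1, V2, V3] at e2
  rw [G0] at t0
  rw [G1] at t1
  rw [G2] at t2
  rw [G3] at t3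
  obtain ⟨c2, hc2, hc2'⟩ := carry L m0 m1 m2 r0 r1 r2 hr0 hr1 hr2 (by omega)
  obtain ⟨c3, hc3, hc3'⟩ := carry L m1 m2 m3 r1 r2 r3 hr1 hr2 hr3 (by omega)
  have k1 := key3 _ _ _ _ _ _ _ _ _ _ _ _ hc2 e1
  have k2 := key3 _ _ _ _ _ _ _ _ _ _ _ _ hc3 e2
  obtain ⟨hst, hgood⟩ := hg (x m0) r0 (x m1) r1 (x m2) r2 (x m3) r3 c2 c3 (hi.1 _) (hi.1 _)
    (hi.1 _) (hi.1 _) hr0 hr1 hr2 hr3 t0 t1 t2 t3 hc2' hc3' k1 k2
  -- the upper positions increase
  have hqL : L ≤ q := by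
    cases hs : strict with
    | false => exact hL hs
    | true =>
      have h1 := hst hs
      subst h1
      have h2 : L * m0 + q = L * m1 := by omega
      have h3 : m0 < m1 := by
        by_contra hcon
        push Not at hcon
        have := Nat.mul_le_mul_left L hcon
        omega
      have h4 : L * (m0 + 1) ≤ L * m1 := Nat.mul_le_mul_left L h3
      have h5 : L * (m0 + 1) = L * m0 + L := by ring
      clear V0 V1 V2 V3 e1 e2 k1 k2 hgood
      omega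
  have hdiv : m0 + q / L ≤ m1 := by
    have h1 : L * (q / L) ≤ q := Nat.mul_div_le q L
    by_contra hcon
    push Not at hcon
    have h2 : L * (m1 + 1) ≤ L * (m0 + q / L) := Nat.mul_le_mul_left L hcon
    have h3 : L * (m1 + 1) = L * m1 + L := by ring
    have h4 : L * (m0 + q / L) = L * m0 + L * (q / L) := by ring
    clear V0 V1 V2 V3 e1 e2 k1 k2 hgood
    omega
  have hq1 : 1 ≤ q / L := (Nat.one_le_div_iff hL0).2 hqL
  rcases hgood with ⟨s0, hs0, s1, hs1, s2, hs2, s3, hs3, f1, f2, g1, g2⟩ |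
    ⟨k, hk, ⟨b0, b1, b2, b3⟩, f1, f2, g1, g2⟩
  · have A1 := key _ _ _ _ _ _ _ _ _ _ _ _ _ _ _ _ _ _ h.al0 hc2 e1 f1 g1
    have A2 := key _ _ _ _ _ _ _ _ _ _ _ _ _ _ _ _ _ _ h.al0 hc3 e2 f2 g2
    rw [← S_shift x m0 s0 hs0, ← S_shift x m2 s2 hs2, ← S_shift x m1 s1 hs1] at A1
    rw [← S_shift x m1 s1 hs1, ← S_shift x m3 s3 hs3, ← S_shift x m2 s2 hs2] at A2
    obtain ⟨q', hq'⟩ : ∃ q', m1 + s1 = m0 + s0 + q' := ⟨m1 + s1 - (m0 + s0), by omega⟩
    have p1 : m0 + s0 + q' = m1 + s1 := hq'.symm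
    have p2 : m0 + s0 + 2 * q' = m2 + s2 := by omega
    have p3 : m0 + s0 + 3 * q' = m3 + s3 := by omega
    refine ⟨0, hnU, m0 + s0, q', ⟨⟨(hz _).1, (hz _).1, (hz _).1, (hz _).1⟩, ?_, ?_⟩, by omega, ?_⟩
    · unfold V
      rw [(hz _).2, (hz _).2, (hz _).2, p1, p2]
      simpa using A1
    · unfold V
      rw [(hz _).2, (hz _).2, (hz _).2, p1, p2, p3]
      simpa using A2
    · intro hs
      have h1 := hst hs
      subst h1
      have h2 : L * m0 + q = L * m1 := by omega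
      have c2e : c2 = 1 := by
        by_contra hne
        rcases Nat.lt_or_gt_of_ne hne with hlt | hgt
        · have : c2 = 0 := by omega
          subst this
          omega
        · have : L * 2 ≤ L * c2 := Nat.mul_le_mul_left L hgt
          omega
      subst c2e
      have r2e : r2 = r0 := by omega
      subst r2e
      have c3e : c3 = 1 := by
        by_contra hne
        rcases Nat.lt_or_gt_of_ne hne with hlt | hgt
        · have : c3 = 0 := by omega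
          subst this
          omega
        · have : L * 2 ≤ L * c3 := Nat.mul_le_mul_left L hgt
          omega
      subst c3e
      have : s0 = s1 := by omega
      subst this
      have h5 : m1 = m0 + q' := by omega
      rw [h5, Nat.mul_add] at h2
      exact Nat.add_left_cancel h2
  · subst f1 f2
    have A1 := key2 _ _ _ _ _ _ _ _ _ _ _ _ _ _ h.al0 (by omega) e1 g1
    have A2 := key2 _ _ _ _ _ _ _ _ _ _ _ _ _ _ h.al0 (by omega) e2 g2
    obtain ⟨q', hq'⟩ : ∃ q', m1 = m0 + q' := ⟨m1 - m0, by omega⟩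
    have p1 : m0 + q' = m1 := hq'.symm
    have p2 : m0 + 2 * q' = m2 := by omega
    have p3 : m0 + 3 * q' = m3 := by omega
    refine ⟨k, hk, m0, q', ⟨⟨b0, ?_, ?_, ?_⟩, ?_, ?_⟩, by omega, ?_⟩
    · rw [p1]; exact b1
    · rw [p2]; exact b2
    · rw [p3]; exact b3
    · unfold V
      rw [p1, p2]
      exact A1
    · unfold V
      rw [p1, p2, p3]
      exact A2
    · intro hs
      have h1 := hst hs
      subst h1
      have h2 : L * m0 + q = L * m1 := by omega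
      rw [hq', Nat.mul_add] at h2
      exact Nat.add_left_cancel h2

end Pool.Agent.H549R3.Level
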