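import Mathlib
import Pool.Agent.H549R3.Level

set_option autoImplicit false

/-!
A checkable certificate for the hypothesis of the descent lemma.
-/

namespace Pool.Agent.H549R3.Check

open Pool.Agent.H549R3.Chk Pool.Agent.H549R3.Level

/-- conjunction over a list -/
def allL {α : Type} (l : List α) (f : α → Bool) : Bool :=
  List.rec true (fun a _ ih => and (f a) ih) l

theorem allL_spec {α : Type} (l : List α) (f : α → Bool) (h : allL l f = true) :
    ∀ a ∈ l, f a = true := by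
  induction l with
  | nil => intro a ha; simp at ha
  | cons b l ih =>
    have h' : (f b && allL l f) = true := h
    rw [Bool.and_eq_true] at h'
    intro a ha
    rcases List.mem_cons.1 ha with h1 | h1
    · rw [h1]; exact h'.1
    · exact ih h'.2 a h1

/-- disjunction over a list -/
def anyL {α : Type} (l : List α) (f : α → Bool) : Bool :=
  List.rec false (fun a _ ih => or (f a) ih) l

theorem anyL_spec {α : Type} (l : List α) (f : α → Bool) (h : anyL l f = true) :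
    ∃ a ∈ l, f a = true := by
  induction l with
  | nil => exact absurd h (by simp [anyL])
  | cons b l ih =>
    have h' : (f b || anyL l f) = true := h
    rw [Bool.or_eq_true] at h'
    rcases h' with h1 | h1
    · exact ⟨b, by simp, h1⟩
    · obtain ⟨a, ha, hf⟩ := ih h1
      exact ⟨a, by simp [ha], hf⟩

theorem imp_spec (a b : Bool) (h : or (not a) b = true) (ha : a = true) : b = true := by
  subst ha
  simpa using h

section
variable (n L al be : ℕ) (w : ℕ → ℕ → ℕ) (ok : ℕ → ℕ → Bool) (nU : ℕ) (mkU : ℕ → ℕ → Bool)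
  (uU : ℕ → ℕ → ℕ) (strict : Bool) (T : List (ℕ × List ℕ)) (MK : ℕ)

/-- shifted progressions -/
def zB (a0 r0 a1 r1 a2 r2 a3 r3 c2 c3 s0 s1 s2 s3 : ℕ) : Bool :=
  and (Nat.beq (s0 + s2 + c2) (2 * s1 + 1)) (and (Nat.beq (s1 + s3 + c3) (2 * s2 + 1))
    (and (Nat.beq (w a0 r0 + w a2 r2 + 2 * (s1 * (be + al * a1)))
        (2 * w a1 r1 + s0 * (be + al * a0) + s2 * (be + al * a2)))
      (Nat.beq (w a1 r1 + w a3 r3 + 2 * (s2 * (be + al * a2)))
        (2 * w a2 r2 + s1 * (be + al * a1) + s3 * (be + al * a3)))))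

/-- templates of the upper level -/
def xB (a0 r0 a1 r1 a2 r2 a3 r3 c2 c3 k : ℕ) : Bool :=
  and (and (and (mkU k a0) (mkU k a1)) (and (mkU k a2) (mkU k a3)))
    (and (and (Nat.beq c2 1) (Nat.beq c3 1))
      (and (Nat.beq (w a0 r0 + w a2 r2 + 2 * (al * uU k a1))
        (2 * w a1 r1 + al * uU k a0 + al * uU k a2))
      (Nat.beq (w a1 r1 + w a3 r3 + 2 * (al * uU k a2))
        (2 * w a2 r2 + al * uU k a1 + al * uU k a3))))

/-- the tuple is good -/
def goodB (a0 r0 a1 r1 a2 r2 a3 r3 c2 c3 : ℕ) : Bool :=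
  or (zB al be w a0 r0 a1 r1 a2 r2 a3 r3 c2 c3 0 0 0 0)
    (or (zB al be w a0 r0 a1 r1 a2 r2 a3 r3 c2 c3 1 1 1 1)
      (or (anyB nU (fun k => xB al w mkU uU a0 r0 a1 r1 a2 r2 a3 r3 c2 c3 k))
        (anyB 2 fun s0 => anyB 2 fun s1 => anyB 2 fun s2 => anyB 2 fun s3 =>
          zB al be w a0 r0 a1 r1 a2 r2 a3 r3 c2 c3 s0 s1 s2 s3)))

/-- all letters with given residues -/
def fullB (r0 r1 r2 r3 c2 c3 q0 q1 q2 q3 : ℕ) : Bool :=
  allB n fun a0 => or (not (and (ok a0 r0) (Nat.beq (w a0 r0 % al) q0)))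
    (allB n fun a1 => or (not (and (ok a1 r1) (Nat.beq (w a1 r1 % al) q1)))
      (allB n fun a2 => or (not (and (ok a2 r2) (Nat.beq (w a2 r2 % al) q2)))
        (allB n fun a3 => or (not (and (ok a3 r3) (Nat.beq (w a3 r3 % al) q3)))
          (goodB al be w nU mkU uU a0 r0 a1 r1 a2 r2 a3 r3 c2 c3))))

/-- bit of the table -/
def bit (i : ℕ) : Bool := Nat.beq ((MK >>> i) % 2) 1

/-- last step -/
def step2 (r0 r1 r2 r3 c2 c3 q0 q1 q2 q3 : ℕ) : Bool :=
  or (not (bit MK (al * r3 + q3)))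
    (and (or (not strict) (Nat.beq r0 r1))
      (fullB n al be w ok nU mkU uU r0 r1 r2 r3 c2 c3 q0 q1 q2 q3))

/-- first step -/
def step1 (r0 r1 r2 r3 c2 c3 q0 q1 q2 : ℕ) : Bool :=
  or (not (bit MK (al * r2 + q2)))
    (step2 n al be w ok nU mkU uU strict MK r0 r1 r2 r3 c2 c3 q0 q1 q2
      ((2 * q2 + be + al * (2 * be + 2) - (q1 + be * c3)) % al))

/-- residues at two places -/
def inner (r0 : ℕ) (R0 : List ℕ) (r1 : ℕ) (R1 : List ℕ) (r2 c2 r3 c3 : ℕ) : Bool :=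
  allL R0 fun q0 => allL R1 fun q1 =>
    step1 n al be w ok nU mkU uU strict MK r0 r1 r2 r3 c2 c3 q0 q1
      ((2 * q1 + be + al * (2 * be + 2) - (q0 + be * c2)) % al)

/-- the whole check -/
def mainB : Bool :=
  allL T fun p0 => allL T fun p1 =>
    inner n al be w ok nU mkU uU strict MK p0.1 p0.2 p1.1 p1.2
      ((2 * p1.1 + L - p0.1) % L) ((2 * p1.1 + L - p0.1) / L)
      ((2 * ((2 * p1.1 + L - p0.1) % L) + L - p1.1) % L)
      ((2 * ((2 * p1.1 + L - p0.1) % L) + L - p1.1) / L)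

/-- residues are listed -/
def covB : Bool :=
  allL T fun p => allB n fun a => or (not (ok a p.1))
    (anyL p.2 fun q => Nat.beq (w a p.1 % al) q)

/-- residues are in the bit table -/
def bitB : Bool :=
  allB L fun r => allB n fun a => or (not (ok a r)) (bit MK (al * r + w a r % al))

end

theorem zB_spec (M : Map) (u : ℕ → ℕ) (a0 r0 a1 r1 a2 r2 a3 r3 c2 c3 s0 s1 s2 s3 : ℕ)
    (h : zB M.al M.be (M.w u) a0 r0 a1 r1 a2 r2 a3 r3 c2 c3 s0 s1 s2 s3 = true) :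
    s0 + s2 + c2 = 2 * s1 + 1 ∧ s1 + s3 + c3 = 2 * s2 + 1 ∧
    M.w u a0 r0 + M.w u a2 r2 + 2 * (s1 * (M.be + M.al * a1)) =
      2 * M.w u a1 r1 + s0 * (M.be + M.al * a0) + s2 * (M.be + M.al * a2) ∧
    M.w u a1 r1 + M.w u a3 r3 + 2 * (s2 * (M.be + M.al * a2)) =
      2 * M.w u a2 r2 + s1 * (M.be + M.al * a1) + s3 * (M.be + M.al * a3) := by
  unfold zB at h
  rw [Bool.and_eq_true, Bool.and_eq_true, Bool.and_eq_true] at h
  exact ⟨Nat.eq_of_beq_eq_true h.1, Nat.eq_of_beq_eq_true h.2.1, Nat.eq_of_beq_eq_true h.2.2.1,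
    Nat.eq_of_beq_eq_true h.2.2.2⟩

theorem goodB_spec (M : Map) (nU : ℕ) (mkU : ℕ → ℕ → Bool) (uU : ℕ → ℕ → ℕ) (u : ℕ → ℕ)
    (a0 r0 a1 r1 a2 r2 a3 r3 c2 c3 : ℕ)
    (h : goodB M.al M.be (M.w u) nU mkU uU a0 r0 a1 r1 a2 r2 a3 r3 c2 c3 = true) :
    Good M nU mkU uU u a0 r0 a1 r1 a2 r2 a3 r3 c2 c3 := by
  unfold goodB at h
  rw [Bool.or_eq_true, Bool.or_eq_true, Bool.or_eq_true] at h
  rcases h with h | h | h | h
  · left
    exact ⟨0, by norm_num, 0, by norm_num, 0, by norm_num, 0, by norm_num,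
      zB_spec M u _ _ _ _ _ _ _ _ _ _ _ _ _ _ h⟩
  · left
    exact ⟨1, by norm_num, 1, by norm_num, 1, by norm_num, 1, by norm_num,
      zB_spec M u _ _ _ _ _ _ _ _ _ _ _ _ _ _ h⟩
  · right
    obtain ⟨k, hk, hx⟩ := anyB_spec _ _ h
    unfold xB at hx
    simp only [Bool.and_eq_true] at hx
    obtain ⟨⟨⟨m0, m1⟩, ⟨m2, m3⟩⟩, ⟨e2, e3⟩, f1, f2⟩ := hx
    exact ⟨k, hk, ⟨m0, m1, m2, m3⟩, Nat.eq_of_beq_eq_true e2, Nat.eq_of_beq_eq_true e3,
      Nat.eq_of_beq_eq_true f1, Nat.eq_of_beq_eq_true f2⟩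
  · left
    obtain ⟨s0, hs0, h⟩ := anyB_spec _ _ h
    obtain ⟨s1, hs1, h⟩ := anyB_spec _ _ h
    obtain ⟨s2, hs2, h⟩ := anyB_spec _ _ h
    obtain ⟨s3, hs3, h⟩ := anyB_spec _ _ h
    exact ⟨s0, hs0, s1, hs1, s2, hs2, s3, hs3, zB_spec M u _ _ _ _ _ _ _ _ _ _ _ _ _ _ h⟩

/-- the residue of the third point -/
theorem res_eq (al be v0 v1 v2 c : ℕ) (hc : c ≤ 2) (hal : 0 < al)
    (h : v0 + v2 + be * c ≡ 2 * v1 + be [MOD al]) :
    v2 % al = (2 * (v1 % al) + be + al * (2 * be + 2) - (v0 % al + be * c)) % al := by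
  set X := 2 * (v1 % al) + be + al * (2 * be + 2) - (v0 % al + be * c) with hX
  have hle : v0 % al + be * c ≤ 2 * (v1 % al) + be + al * (2 * be + 2) := by
    have h1 : v0 % al < al := Nat.mod_lt _ hal
    have h2 : be * c ≤ be * 2 := Nat.mul_le_mul_left be hc
    have h3 : 1 * (2 * be) ≤ al * (2 * be) := Nat.mul_le_mul_right _ hal
    have h4 : al * (2 * be + 2) = al * (2 * be) + 2 * al := by ring
    omega
  have hsum : X + (v0 % al + be * c) = 2 * (v1 % al) + be + al * (2 * be + 2) :=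
    Nat.sub_add_cancel hle
  have e1 : 2 * (v1 % al) + be + al * (2 * be + 2) ≡ 2 * v1 + be [MOD al] := by
    have a1 : 2 * (v1 % al) ≡ 2 * v1 [MOD al] := (Nat.mod_modEq v1 al).mul_left 2
    have a2 : 2 * (v1 % al) + be + al * (2 * be + 2) ≡ 2 * (v1 % al) + be [MOD al] := by
      unfold Nat.ModEq; simp
    exact a2.trans (a1.add_right be)
  have e2 : X + (v0 + be * c) ≡ v2 + (v0 + be * c) [MOD al] := by
    have b1 : X + (v0 % al + be * c) ≡ X + (v0 + be * c) [MOD al] :=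
      Nat.ModEq.add_left X ((Nat.mod_modEq v0 al).add_right _)
    have b2 : v0 + v2 + be * c = v2 + (v0 + be * c) := by ring
    rw [hsum] at b1
    rw [b2] at h
    exact b1.symm.trans (e1.trans h.symm)
  exact (Nat.ModEq.add_right_cancel' _ e2).symm

theorem sound (M : Map) (hM : M.Ok) (nU : ℕ) (mkU : ℕ → ℕ → Bool) (uU : ℕ → ℕ → ℕ)
    (mk : ℕ → Bool) (u : ℕ → ℕ) (strict : Bool) (T : List (ℕ × List ℕ)) (MK : ℕ)
    (hT : T.map Prod.fst = List.range M.L)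
    (hcov : covB M.n M.al (M.w u) (fun a r => mk (M.G a r)) T = true)
    (hbit : bitB M.n M.L M.al (M.w u) (fun a r => mk (M.G a r)) MK = true)
    (hmain : mainB M.n M.L M.al M.be (M.w u) (fun a r => mk (M.G a r)) nU mkU uU strict T MK
      = true) :
    AllGood M nU mkU uU mk u strict := by
  intro a0 r0 a1 r1 a2 r2 a3 r3 c2 c3 ha0 ha1 ha2 ha3 hr0 hr1 hr2 hr3 k0 k1 k2 k3 e2 e3 f2 f3
  have hL := hM.L0
  have hal := hM.al0
  -- carries are small
  have c2le : c2 ≤ 2 := by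
    by_contra hcon
    push Not at hcon
    have : M.L * 3 ≤ M.L * c2 := Nat.mul_le_mul_left _ hcon
    omega
  have c3le : c3 ≤ 2 := by
    by_contra hcon
    push Not at hcon
    have : M.L * 3 ≤ M.L * c3 := Nat.mul_le_mul_left _ hcon
    omega
  -- positions
  have p2 : 2 * r1 + M.L - r0 = r2 + M.L * c2 := by omega
  have p3 : 2 * r2 + M.L - r1 = r3 + M.L * c3 := by omega
  have p2m : (2 * r1 + M.L - r0) % M.L = r2 := by
    rw [p2, Nat.add_mul_mod_self_left, Nat.mod_eq_of_lt hr2]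
  have p2d : (2 * r1 + M.L - r0) / M.L = c2 := by
    rw [p2, Nat.add_mul_div_left _ _ hL, Nat.div_eq_of_lt hr2, zero_add]
  have p3m : (2 * r2 + M.L - r1) % M.L = r3 := by
    rw [p3, Nat.add_mul_mod_self_left, Nat.mod_eq_of_lt hr3]
  have p3d : (2 * r2 + M.L - r1) / M.L = c3 := by
    rw [p3, Nat.add_mul_div_left _ _ hL, Nat.div_eq_of_lt hr3, zero_add]
  -- residues
  have q2 := res_eq M.al M.be _ _ _ c2 c2le hal f2
  have q3 := res_eq M.al M.be _ _ _ c3 c3le hal f3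
  -- membership
  have mem : ∀ r < M.L, ∀ a < M.n, mk (M.G a r) = true →
      ∃ R, (r, R) ∈ T ∧ (M.w u a r % M.al) ∈ R := by
    intro r hr a ha hk
    have h1 : r ∈ T.map Prod.fst := by rw [hT]; exact List.mem_range.2 hr
    obtain ⟨p, hp, hpr⟩ := List.mem_map.1 h1
    refine ⟨p.2, by rw [← hpr]; exact hp, ?_⟩
    have h2 := allL_spec _ _ hcov p hp
    have h3 := allB_spec _ _ h2 a ha
    have h4 := imp_spec _ _ h3 (by rw [hpr]; exact hk)
    obtain ⟨q, hq, hqe⟩ := anyL_spec _ _ h4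
    have h5 := Nat.eq_of_beq_eq_true hqe
    rw [hpr] at h5
    rw [h5]; exact hq
  have bt : ∀ r < M.L, ∀ a < M.n, mk (M.G a r) = true →
      bit MK (M.al * r + M.w u a r % M.al) = true := by
    intro r hr a ha hk
    have h1 := allB_spec _ _ hbit r hr
    have h2 := allB_spec _ _ h1 a ha
    exact imp_spec _ _ h2 hk
  obtain ⟨R0, hR0, hm0⟩ := mem r0 hr0 a0 ha0 k0
  obtain ⟨R1, hR1, hm1⟩ := mem r1 hr1 a1 ha1 k1
  have B2 := bt r2 hr2 a2 ha2 k2
  have B3 := bt r3 hr3 a3 ha3 k3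
  have s1 := allL_spec _ _ hmain (r0, R0) hR0
  have s2 := allL_spec _ _ s1 (r1, R1) hR1
  simp only [p2m, p2d, p3m, p3d] at s2
  have s3 := allL_spec _ _ s2 _ hm0
  have s4 := allL_spec _ _ s3 _ hm1
  rw [← q2] at s4
  have s5 := imp_spec _ _ s4 B2
  rw [← q3] at s5
  have s6 := imp_spec _ _ s5 B3
  rw [Bool.and_eq_true] at s6
  obtain ⟨s7, s8⟩ := s6
  refine ⟨?_, ?_⟩
  · intro hs
    exact Nat.eq_of_beq_eq_true (imp_spec _ _ s7 hs)
  · have t0 := imp_spec _ _ (allB_spec _ _ s8 a0 ha0)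
      (by rw [Bool.and_eq_true]; exact ⟨k0, Nat.beq_refl _⟩)
    have t1 := imp_spec _ _ (allB_spec _ _ t0 a1 ha1)
      (by rw [Bool.and_eq_true]; exact ⟨k1, Nat.beq_refl _⟩)
    have t2 := imp_spec _ _ (allB_spec _ _ t1 a2 ha2)
      (by rw [Bool.and_eq_true]; exact ⟨k2, Nat.beq_refl _⟩)
    have t3 := imp_spec _ _ (allB_spec _ _ t2 a3 ha3)
      (by rw [Bool.and_eq_true]; exact ⟨k3, Nat.beq_refl _⟩)
    exact goodB_spec M nU mkU uU u _ _ _ _ _ _ _ _ _ _ t3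

end Pool.Agent.H549R3.Check
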