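import Mathlib

set_option autoImplicit false

/-!
The template families.
-/

namespace Pool.Agent.H549R3.Fam

/-- masks for words over four letters -/
def mkZ (k a : ℕ) : Bool := or (Nat.beq k 0) (Nat.beq ((3039 >>> (4 * k + a)) % 2) 1)

/-- shifts for words over four letters -/
def uZ (k a : ℕ) : ℕ := cond (Nat.beq k 0) 0 ((8671232 >>> (2 * (4 * k + a))) % 4)

/-- masks for words over three letters -/
def mkY (k a : ℕ) : Bool := or (Nat.beq k 0) (Nat.beq ((5 >>> a) % 2) 1)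

/-- shifts for words over three letters -/
def uY (k a : ℕ) : ℕ := cond (Nat.beq k 0) 0 (Nat.div a 2)

/-- full mask -/
def mkB (_ : ℕ) : Bool := true

/-- no shift -/
def uB (_ : ℕ) : ℕ := 0

theorem hzZ (a : ℕ) : mkZ 0 a = true ∧ uZ 0 a = 0 := ⟨rfl, rfl⟩
theorem hzY (a : ℕ) : mkY 0 a = true ∧ uY 0 a = 0 := ⟨rfl, rfl⟩

end Pool.Agent.H549R3.Fam
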