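import Mathlib
import Pool.Agent.H549R3.Check
import Pool.Agent.H549R3.Fam
set_option autoImplicit false

/-!
The 83-uniform map from {0,1,2} to {0,1}.
-/

namespace Pool.Agent.H549R3.BMap

open Pool.Agent.H549R3.Chk Pool.Agent.H549R3.Level Pool.Agent.H549R3.Check Pool.Agent.H549R3.Fam

/-- packed images, two bits per letter -/
def GC : ℕ := 272520128670500881387483998681723834685476686474755378925630702293391053214166698141028458860367414987452663331788042184391485857055921135702071312464

/-- packed prefix sums, eight bits each -/
def PC : ℕ := 2065402922781721405946348054243586953052211061924452071645421816547921670468293816502596153009062438855775870075907481050889861676831576378695650048944702741564244551726104444268656577119907091414729265327368779859388454508469630122900277405966917865980623352581599063868628310994942419894100635006108042291512656622608334271515628208546077100890470674162966545726733333668309159270782377180937669558209906039427326762132687176433398981113741571087529081733467533861494963087855121984701079221584646357042849181400800459049382167361002939620148329457933018568986532802933886332100739257668713474312189771776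

/-- letter at place r of the image of a -/
def G (a r : ℕ) : ℕ := (GC >>> (2 * (83 * a + r))) % 4

/-- prefix sums of the images -/
def P (a r : ℕ) : ℕ := (PC >>> (8 * (84 * a + r))) % 256

/-- the map -/
def M : Map := { n := 3, L := 83, al := 29, be := 12, G := G, P := P }

theorem c0 : allB 3 (fun a => Nat.beq (P a 0) 0) = true := by decide +kernel
theorem cL : allB 3 (fun a => Nat.beq (P a 83) (12 + 29 * a)) = true := by decide +kernel
theorem cs : allB 3 (fun a => allB 83 fun r => Nat.beq (P a (r + 1)) (P a r + G a r)) = true := by
  decide +kernel

theorem okM : M.Ok where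
  L0 := by decide
  al0 := by decide
  P0 := fun a ha => Nat.eq_of_beq_eq_true (allB_spec _ _ c0 a ha)
  Ps := fun a ha r hr => Nat.eq_of_beq_eq_true (allB_spec _ _ (allB_spec _ _ cs a ha) r hr)
  PL := fun a ha => Nat.eq_of_beq_eq_true (allB_spec _ _ cL a ha)

/-- residues, type 0 -/
def T0 : List (ℕ × List ℕ) :=
  [(0, [0]), (1, [0]), (2, [0]), (3, [1]), (4, [2]), (5, [2, 3]), (6, [2, 4]), (7, [2, 5]),
   (8, [2, 6]), (9, [2, 6]), (10, [2, 7]), (11, [2, 8]), (12, [2, 9]), (13, [3, 10]),
   (14, [3, 11, 10]), (15, [3, 12, 10]), (16, [3, 13, 10]), (17, [3, 13, 11]),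
   (18, [4, 13, 12]), (19, [4, 13]), (20, [4, 14]), (21, [4, 15]), (22, [4, 16]),
   (23, [4, 16, 17]), (24, [4, 16, 18]), (25, [4, 16, 19]), (26, [4, 16, 20]),
   (27, [4, 16, 20]), (28, [4, 17, 21]), (29, [4, 17, 22]), (30, [4, 18, 23]),
   (31, [4, 19, 24]), (32, [4, 19, 25]), (33, [4, 20, 26]), (34, [4, 21, 27]),
   (35, [4, 21, 28]), (36, [4, 22, 0]), (37, [4, 23, 1]), (38, [4, 24, 2]), (39, [4, 25, 3]),
   (40, [4, 25]), (41, [4, 26, 5]), (42, [4, 26, 6]), (43, [4, 27, 7]), (44, [4, 28, 8]),
   (45, [4, 28, 9]), (46, [4, 28, 10]), (47, [4, 0, 11]), (48, [4, 1, 12]), (49, [4, 1, 13]),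
   (50, [4, 2, 14]), (51, [4, 3, 15]), (52, [4, 3, 16]), (53, [4, 16]), (54, [4, 5, 17]),
   (55, [4, 5, 17]), (56, [5, 18]), (57, [5, 19]), (58, [5, 20]), (59, [5, 21]), (60, [5, 22]),
   (61, [5, 23]), (62, [5, 24]), (63, [5, 25]), (64, [5, 26]), (65, [5, 27]), (66, [5, 28]),
   (67, [5, 0]), (68, [5, 1]), (69, [5, 2]), (70, [5, 3]), (71, [5, 4]), (72, [5]), (73, [5]),
   (74, [6]), (75, [7]), (76, [7]), (77, [7]), (78, [7]), (79, [8]), (80, [9]), (81, [10]),
   (82, [11])]

/-- bit table, type 0 -/
def MK0 : ℕ := 144763688997115702348806776482793699586101044932323098882958685534051401919731092841913561361197838947251827128021067112486830500601000892323316061247031275285496437573179540386025396837002099633538140069992338889630503711623844399627834113098439384803728056139136724388082291279984815466134760320563392455031626628880815649450268285371228485062763152120345222243170863498897622705691969643482975921852210810293016173481462477577776996023626837628823039848403941400718586722945695608499006563195378164914389616040985616351398412785258993661530908846066905765461196056344181676330081434470669161874066999118603060422535218916667458789803598489953482266703294996591247704214108921361585730428502881113965159678800373481473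

theorem hT0 : T0.map Prod.fst = List.range 83 := by decide +kernel
theorem hcov0 : covB 3 29 (M.w uB) (fun a r => mkB (G a r)) T0 = true := by
  decide +kernel
theorem hbit0 : bitB 3 83 29 (M.w uB) (fun a r => mkB (G a r)) MK0 = true := by
  decide +kernel
theorem hmain0 : mainB 3 83 29 12 (M.w uB) (fun a r => mkB (G a r)) 2 mkY uY
    false T0 MK0 = true := by
  decide +kernel

theorem all0 : AllGood M 2 mkY uY mkB uB false :=
  sound M okM 2 mkY uY mkB uB false T0 MK0 hT0 hcov0 hbit0 hmain0

end Pool.Agent.H549R3.BMap
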