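import Mathlib
import Pool.Agent.H549R3.Check
import Pool.Agent.H549R3.Fam
set_option autoImplicit false

/-!
The 61-uniform map from {0,1,2,3} to {0,1,2}.
-/

namespace Pool.Agent.H549R3.YMap

open Pool.Agent.H549R3.Chk Pool.Agent.H549R3.Level Pool.Agent.H549R3.Check Pool.Agent.H549R3.Fam

/-- packed images, two bits per letter -/
def GC : ℕ := 431098278881055037270599459886850379741101253785782699628162778947307176453196634376840882520795175399681848673170363913500135952747319222144688516

/-- packed prefix sums, eight bits each -/
def PC : ℕ := 618266940644050080207317158534180166914802294912502176218037237918871624093179978738104204521237227367455523527795799022818655732273319664203416428103652292625050295535829261214851418099690750893875236776843804419018267885349838591579569608659888895334656665696378022685528607777860951152024985126959762357359350325210573260645379697804592653195908364415735736393819843612817494084975654606518281243682604258149757838028880220075404229976821081708388139183213115411716644897218133397678004814790878194521473925310577660031968020646554773146342704817804091213617769005982738908612482506778872971264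

/-- letter at place r of the image of a -/
def G (a r : ℕ) : ℕ := (GC >>> (2 * (61 * a + r))) % 4

/-- prefix sums of the images -/
def P (a r : ℕ) : ℕ := (PC >>> (8 * (62 * a + r))) % 256

/-- the map -/
def M : Map := { n := 4, L := 61, al := 19, be := 33, G := G, P := P }

theorem c0 : allB 4 (fun a => Nat.beq (P a 0) 0) = true := by decide +kernel
theorem cL : allB 4 (fun a => Nat.beq (P a 61) (33 + 19 * a)) = true := by decide +kernel
theorem cs : allB 4 (fun a => allB 61 fun r => Nat.beq (P a (r + 1)) (P a r + G a r)) = true := by
  decide +kernel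

theorem okM : M.Ok where
  L0 := by decide
  al0 := by decide
  P0 := fun a ha => Nat.eq_of_beq_eq_true (allB_spec _ _ c0 a ha)
  Ps := fun a ha r hr => Nat.eq_of_beq_eq_true (allB_spec _ _ (allB_spec _ _ cs a ha) r hr)
  PL := fun a ha => Nat.eq_of_beq_eq_true (allB_spec _ _ cL a ha)

/-- residues, type 0 -/
def T0 : List (ℕ × List ℕ) :=
  [(0, [0]), (1, [0]), (2, [1]), (3, [1]), (4, [3]), (5, [4]), (6, [4]), (7, [6]), (8, [7]),
   (9, [8]), (10, [8]), (11, [8, 10]), (12, [8, 11]), (13, [8, 13]), (14, [8, 15]),
   (15, [8, 17]), (16, [8, 0]), (17, [9, 1]), (18, [9, 2]), (19, [9, 4]), (20, [11, 6]),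
   (21, [11, 8]), (22, [11, 9]), (23, [12, 11]), (24, [12, 13]), (25, [12, 14]),
   (26, [12, 16]), (27, [13, 17]), (28, [13, 0]), (29, [13, 2]), (30, [13, 4]), (31, [13, 6]),
   (32, [13, 8]), (33, [14, 9]), (34, [14, 10, 11]), (35, [14, 10, 13]), (36, [14, 11, 15]),
   (37, [14, 13, 17]), (38, [14, 0]), (39, [15, 2]), (40, [17, 4]), (41, [18, 6]),
   (42, [18, 8]), (43, [18, 10]), (44, [18, 12]), (45, [18, 12]), (46, [18, 14]),
   (47, [18, 15]), (48, [18, 16]), (49, [18]), (50, [1]), (51, [3]), (52, [3, 4]), (53, [5]),
   (54, [5]), (55, [7]), (56, [8]), (57, [8]), (58, [10]), (59, [12, 10]), (60, [12])]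

/-- bit table, type 0 -/
def MK0 : ℕ := 61172473339096717206766363594939985349089083093720319596070593026969648098548321913310149830848295735021085616207204477144369186388724374348508092924826689893281660039591115408650696856261447286292100711244661084035900111726399296954176498195080386545457626930709773215440177591778410301217552931936529526508404121603575339846054294310112564084737

theorem hT0 : T0.map Prod.fst = List.range 61 := by decide +kernel
theorem hcov0 : covB 4 19 (M.w (uY 0)) (fun a r => (mkY 0) (G a r)) T0 = true := by
  decide +kernel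
theorem hbit0 : bitB 4 61 19 (M.w (uY 0)) (fun a r => (mkY 0) (G a r)) MK0 = true := by
  decide +kernel
theorem hmain0 : mainB 4 61 19 33 (M.w (uY 0)) (fun a r => (mkY 0) (G a r)) 3 mkZ uZ
    false T0 MK0 = true := by
  decide +kernel

theorem all0 : AllGood M 3 mkZ uZ (mkY 0) (uY 0) false :=
  sound M okM 3 mkZ uZ (mkY 0) (uY 0) false T0 MK0 hT0 hcov0 hbit0 hmain0

/-- residues, type 1 -/
def T1 : List (ℕ × List ℕ) :=
  [(0, [0]), (1, []), (2, [1]), (3, [2]), (4, []), (5, [4]), (6, [5]), (7, []), (8, []),
   (9, [8]), (10, [8, 9]), (11, [8]), (12, [8, 12]), (13, [8, 14]), (14, [8, 16]),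
   (15, [8, 18]), (16, []), (17, [9]), (18, [9, 3]), (19, [10, 5]), (20, [11, 7]), (21, [11]),
   (22, [10]), (23, [12]), (24, [12]), (25, [12, 15]), (26, []), (27, [13, 18]), (28, [13, 1]),
   (29, [13, 3]), (30, [13, 5]), (31, [13, 7]), (32, []), (33, [14, 10]), (34, [14, 10, 12]),
   (35, [14]), (36, [14, 12, 16]), (37, [14, 18]), (38, [1]), (39, [16, 3]), (40, [5]),
   (41, [18, 7]), (42, [18, 9]), (43, [18, 11]), (44, [18, 12]), (45, [18, 13]), (46, [18]),
   (47, [18]), (48, [18, 17]), (49, [0]), (50, [2]), (51, [3]), (52, [4]), (53, [5]),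
   (54, [6]), (55, []), (56, [8]), (57, [9]), (58, [11, 10]), (59, [12, 11]), (60, [13])]

/-- bit table, type 1 -/
def MK1 : ℕ := 122344830001293860880918708805414165230993109862625344397275807338428992931367552929257295058900465968285276949192939066284461743944885690305878633933386516851623462564852934340173762906848175353283776797175046873965274586054048283178459478025926206088741858826970976177523570110129534504947759843006793686931201713059340158002676052341263209332737

theorem hT1 : T1.map Prod.fst = List.range 61 := by decide +kernel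
theorem hcov1 : covB 4 19 (M.w (uY 1)) (fun a r => (mkY 1) (G a r)) T1 = true := by
  decide +kernel
theorem hbit1 : bitB 4 61 19 (M.w (uY 1)) (fun a r => (mkY 1) (G a r)) MK1 = true := by
  decide +kernel
theorem hmain1 : mainB 4 61 19 33 (M.w (uY 1)) (fun a r => (mkY 1) (G a r)) 3 mkZ uZ
    false T1 MK1 = true := by
  decide +kernel

theorem all1 : AllGood M 3 mkZ uZ (mkY 1) (uY 1) false :=
  sound M okM 3 mkZ uZ (mkY 1) (uY 1) false T1 MK1 hT1 hcov1 hbit1 hmain1

end Pool.Agent.H549R3.YMap
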