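import Mathlib
import Pool.Agent.H549R3.ZMap
import Pool.Agent.H549R3.YMap
import Pool.Agent.H549R3.BMap

set_option autoImplicit false

/-!
A binary word without long abelian cubes.
-/

namespace Pool.Agent.H549R3.Final

open Finset Pool.Agent.H549R3.Chk Pool.Agent.H549R3.Level Pool.Agent.H549R3.Fam

/-- fixed point of the 85-uniform map -/
def z : ℕ → ℕ
  | 0 => 3
  | (n + 1) => ZMap.G (z ((n + 1) / 85)) ((n + 1) % 85)
decreasing_by omega

theorem z_eq (n : ℕ) : z n = ZMap.G (z (n / 85)) (n % 85) := by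
  cases n with
  | zero =>
    have h : ZMap.G 3 0 = 3 := by decide +kernel
    simp [z, h]
  | succ n => rw [z]

theorem z_lt (n : ℕ) : z n < 4 := by
  rw [z_eq]
  exact Nat.mod_lt _ (by norm_num)

theorem imgZ : ZMap.M.Img z z := by
  refine ⟨z_lt, fun m r hr => ?_⟩
  have hr' : r < 85 := hr
  change z (85 * m + r) = ZMap.G (z m) r
  rw [z_eq]
  have h1 : (85 * m + r) / 85 = m := by omega
  have h2 : (85 * m + r) % 85 = r := by omega
  rw [h1, h2]

theorem allZ (k : ℕ) (hk : k < 3) : AllGood ZMap.M 3 mkZ uZ (mkZ k) (uZ k) true := by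
  have : k = 0 ∨ k = 1 ∨ k = 2 := by omega
  rcases this with rfl | rfl | rfl
  · exact ZMap.all0
  · exact ZMap.all1
  · exact ZMap.all2

/-- the word over four letters realises no template -/
theorem noZ (q : ℕ) : ∀ k < 3, ∀ j, 0 < q → ¬ Tpl z (mkZ k) (uZ k) j q := by
  induction q using Nat.strong_induction_on with
  | _ q ih =>
    intro k hk j hq h
    obtain ⟨k', hk', j', q', ht, _, he⟩ := descent ZMap.M ZMap.okM 3 (by norm_num) mkZ uZ hzZ
      (mkZ k) (uZ k) true (allZ k hk) z z imgZ j q hq (by simp) h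
    have he' : q = 85 * q' := he rfl
    exact ih q' (by omega) k' hk' j' (by omega) ht

/-- the word over three letters -/
def y (n : ℕ) : ℕ := YMap.G (z (n / 61)) (n % 61)

theorem imgY : YMap.M.Img z y := by
  refine ⟨z_lt, fun m r hr => ?_⟩
  have hr' : r < 61 := hr
  change y (61 * m + r) = YMap.G (z m) r
  unfold y
  have h1 : (61 * m + r) / 61 = m := by omega
  have h2 : (61 * m + r) % 61 = r := by omega
  rw [h1, h2]

theorem ycheck : allB 4 (fun a => allB 61 fun r => Nat.blt (YMap.G a r) 3) = true := by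
  decide +kernel

theorem y_lt (n : ℕ) : y n < 3 := by
  have h := allB_spec _ _ (allB_spec _ _ ycheck (z (n / 61)) (z_lt _)) (n % 61)
    (Nat.mod_lt _ (by norm_num))
  exact Nat.le_of_ble_eq_true h

theorem allY (k : ℕ) (hk : k < 2) : AllGood YMap.M 3 mkZ uZ (mkY k) (uY k) false := by
  have : k = 0 ∨ k = 1 := by omega
  rcases this with rfl | rfl
  · exact YMap.all0
  · exact YMap.all1

theorem noY (q : ℕ) (hq : 122 ≤ q) (k : ℕ) (hk : k < 2) (j : ℕ) :
    ¬ Tpl y (mkY k) (uY k) j q := by
  intro h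
  obtain ⟨k', hk', j', q', ht, hd, _⟩ := descent YMap.M YMap.okM 3 (by norm_num) mkZ uZ hzZ
    (mkY k) (uY k) false (allY k hk) z y imgY j q (by omega)
    (fun _ => by show 61 ≤ q; omega) h
  have hd' : q / 61 ≤ q' + 1 := hd
  exact noZ q' k' hk' j' (by omega) ht

/-- the binary word -/
def b (n : ℕ) : ℕ := BMap.G (y (n / 83)) (n % 83)

theorem imgB : BMap.M.Img y b := by
  refine ⟨y_lt, fun m r hr => ?_⟩
  have hr' : r < 83 := hr
  change b (83 * m + r) = BMap.G (y m) r
  unfold b
  have h1 : (83 * m + r) / 83 = m := by omega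
  have h2 : (83 * m + r) % 83 = r := by omega
  rw [h1, h2]

theorem bcheck : allB 3 (fun a => allB 83 fun r => Nat.blt (BMap.G a r) 2) = true := by
  decide +kernel

theorem b_lt (n : ℕ) : b n < 2 := by
  have h := allB_spec _ _ (allB_spec _ _ bcheck (y (n / 83)) (y_lt _)) (n % 83)
    (Nat.mod_lt _ (by norm_num))
  exact Nat.le_of_ble_eq_true h

theorem noB (q : ℕ) (hq : 10209 ≤ q) (j : ℕ) : ¬ Tpl b mkB uB j q := by
  intro h
  obtain ⟨k', hk', j', q', ht, hd, _⟩ := descent BMap.M BMap.okM 2 (by norm_num) mkY uY hzY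
    mkB uB false BMap.all0 y b imgB j q (by omega)
    (fun _ => by show 83 ≤ q; omega) h
  have hd' : q / 83 ≤ q' + 1 := hd
  exact noY q' (by omega) k' hk' j' ht

/-- the binary word as a Boolean sequence -/
def w (n : ℕ) : Bool := Nat.beq (b n) 1

theorem card_eq (i n : ℕ) : ((Ico i (i + n)).filter (fun j => w j = true)).card + S b i =
    S b (i + n) := by
  induction n with
  | zero => simp
  | succ n ih =>
    have hI : Ico i (i + n + 1) = insert (i + n) (Ico i (i + n)) :=
      Nat.Ico_succ_right_eq_insert_Ico (by omega)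
    rw [← Nat.add_assoc, S_succ, ← ih, hI, filter_insert]
    have hb := b_lt (i + n)
    by_cases hw : w (i + n) = true
    · rw [if_pos hw, card_insert_of_notMem (by simp)]
      have : b (i + n) = 1 := Nat.eq_of_beq_eq_true hw
      omega
    · rw [if_neg hw]
      have : b (i + n) ≠ 1 := by
        intro h
        apply hw
        unfold w
        rw [h]
        rfl
      omega

theorem main : ∃ w : ℕ → Bool, ∃ N : ℕ, ∀ i n : ℕ, N ≤ n →
      ¬ ((((Finset.Ico i (i + n)).filter (fun j => w j = true)).card =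
            ((Finset.Ico (i + n) (i + 2 * n)).filter (fun j => w j = true)).card) ∧
         (((Finset.Ico (i + n) (i + 2 * n)).filter (fun j => w j = true)).card =
            ((Finset.Ico (i + 2 * n) (i + 3 * n)).filter (fun j => w j = true)).card)) := by
  refine ⟨w, 10209, fun i n hn h => ?_⟩
  apply noB n hn i
  have c1 := card_eq i n
  have c2 := card_eq (i + n) n
  have c3 := card_eq (i + 2 * n) n
  rw [show i + n + n = i + 2 * n by ring] at c2
  rw [show i + 2 * n + n = i + 3 * n by ring] at c3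
  refine ⟨⟨rfl, rfl, rfl, rfl⟩, ?_, ?_⟩
  · unfold V uB
    omega
  · unfold V uB
    omega

end Pool.Agent.H549R3.Final
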