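import Mathlib

set_option autoImplicit false

/-!
Descent of three term progression templates with values in the plane along uniform maps of words.
-/

namespace Pool.Agent.H549R3.M2

open Finset

/-- Prefix sums of weights. -/
def S (c y : ℕ → ℕ) (n : ℕ) : ℕ := ∑ k ∈ range n, c (y k)

theorem S_succ (c y : ℕ → ℕ) (n : ℕ) : S c y (n + 1) = S c y n + c (y n) := by
  simp [S, sum_range_succ]

/-- Marked value of a position. -/
def V (c u y : ℕ → ℕ) (j : ℕ) : ℕ := S c y j + u (y j)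

/-- Three positions in progression, with letters in the mask, whose marked values are in
progression. -/
def Tpl (cX cY y : ℕ → ℕ) (mk : ℕ → Bool) (uX uY : ℕ → ℕ) (j q : ℕ) : Prop :=
  (mk (y j) = true ∧ mk (y (j + q)) = true ∧ mk (y (j + 2 * q)) = true) ∧
  V cX uX y j + V cX uX y (j + 2 * q) = 2 * V cX uX y (j + q) ∧
  V cY uY y j + V cY uY y (j + 2 * q) = 2 * V cY uY y (j + q)

/-- Data of a uniform map. -/
structure Map where
  /-- number of upper letters -/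
  n : ℕ
  /-- length of the images -/
  L : ℕ
  /-- weight step -/
  al : ℕ
  /-- base weight -/
  bX : ℕ
  /-- base weight -/
  bY : ℕ
  /-- upper weights -/
  vX : ℕ → ℕ
  /-- upper weights -/
  vY : ℕ → ℕ
  /-- lower weights -/
  cX : ℕ → ℕ
  /-- lower weights -/
  cY : ℕ → ℕ
  /-- images -/
  G : ℕ → ℕ → ℕ
  /-- prefix sums of the images -/
  PX : ℕ → ℕ → ℕ
  /-- prefix sums of the images -/
  PY : ℕ → ℕ → ℕ

/-- Correctness of the data. -/
structure Map.Ok (M : Map) : Prop where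
  L0 : 0 < M.L
  al0 : 0 < M.al
  X0 : ∀ a < M.n, M.PX a 0 = 0
  Xs : ∀ a < M.n, ∀ r < M.L, M.PX a (r + 1) = M.PX a r + M.cX (M.G a r)
  XL : ∀ a < M.n, M.PX a M.L = M.bX + M.al * M.vX a
  Y0 : ∀ a < M.n, M.PY a 0 = 0
  Ys : ∀ a < M.n, ∀ r < M.L, M.PY a (r + 1) = M.PY a r + M.cY (M.G a r)
  YL : ∀ a < M.n, M.PY a M.L = M.bY + M.al * M.vY a

/-- `y` is the image of `x`. -/
def Map.Img (M : Map) (x y : ℕ → ℕ) : Prop :=
  (∀ i, x i < M.n) ∧ ∀ m r, r < M.L → y (M.L * m + r) = M.G (x m) r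

theorem S_image (n L al b : ℕ) (v c : ℕ → ℕ) (G P : ℕ → ℕ → ℕ) (x y : ℕ → ℕ)
    (h0 : ∀ a < n, P a 0 = 0) (hs : ∀ a < n, ∀ r < L, P a (r + 1) = P a r + c (G a r))
    (hL : ∀ a < n, P a L = b + al * v a) (hx : ∀ i, x i < n)
    (hy : ∀ m r, r < L → y (L * m + r) = G (x m) r) (m r : ℕ) (hr : r ≤ L) :
    S c y (L * m + r) = b * m + al * S v x m + P (x m) r := by
  have inner : ∀ m, S c y (L * m) = b * m + al * S v x m →
      ∀ r, r ≤ L → S c y (L * m + r) = b * m + al * S v x m + P (x m) r := by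
    intro m hm r
    induction r with
    | zero => intro _; simp [hm, h0 _ (hx m)]
    | succ r ih =>
      intro hr
      have h1 := ih (by omega)
      rw [← Nat.add_assoc, S_succ, h1, hy m r (by omega), hs _ (hx m) _ (by omega)]
      ring
  have base : ∀ m, S c y (L * m) = b * m + al * S v x m := by
    intro m
    induction m with
    | zero => simp [S]
    | succ m ih =>
      have h1 := inner m ih L (le_refl _)
      rw [Nat.mul_succ, h1, S_succ, hL _ (hx m)]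
      ring
  exact inner m (base m) r hr

/-- value of a marked point of an image -/
def Map.wX (M : Map) (u : ℕ → ℕ) (a r : ℕ) : ℕ := M.PX a r + u (M.G a r)

/-- value of a marked point of an image -/
def Map.wY (M : Map) (u : ℕ → ℕ) (a r : ℕ) : ℕ := M.PY a r + u (M.G a r)

theorem VX_image (M : Map) (h : M.Ok) (x y : ℕ → ℕ) (hi : M.Img x y) (u : ℕ → ℕ) (m r : ℕ)
    (hr : r < M.L) :
    V M.cX u y (M.L * m + r) = M.bX * m + M.al * S M.vX x m + M.wX u (x m) r := by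
  unfold V Map.wX
  rw [S_image M.n M.L M.al M.bX M.vX M.cX M.G M.PX x y h.X0 h.Xs h.XL hi.1 hi.2 m r hr.le,
    hi.2 m r hr]
  ring

theorem VY_image (M : Map) (h : M.Ok) (x y : ℕ → ℕ) (hi : M.Img x y) (u : ℕ → ℕ) (m r : ℕ)
    (hr : r < M.L) :
    V M.cY u y (M.L * m + r) = M.bY * m + M.al * S M.vY x m + M.wY u (x m) r := by
  unfold V Map.wY
  rw [S_image M.n M.L M.al M.bY M.vY M.cY M.G M.PY x y h.Y0 h.Ys h.YL hi.1 hi.2 m r hr.le,
    hi.2 m r hr]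
  ring

/-- a shifted progression, one coordinate -/
def EqS (al b : ℕ) (v : ℕ → ℕ) (a0 a1 a2 w0 w1 w2 s0 s1 s2 : ℕ) : Prop :=
  w0 + w2 + 2 * (s1 * (b + al * v a1)) = 2 * w1 + s0 * (b + al * v a0) + s2 * (b + al * v a2)

/-- a template of the upper level, one coordinate -/
def EqT (al : ℕ) (u : ℕ → ℕ) (a0 a1 a2 w0 w1 w2 : ℕ) : Prop :=
  w0 + w2 + 2 * (al * u a1) = 2 * w1 + al * u a0 + al * u a2

/-- the progression is impossible or too short when it is explained at the same place -/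
def Side (M : Map) (PP a0 r0 a1 r1 a2 s0 s1 s2 : ℕ) : Prop :=
  r1 + M.L * s0 < PP + r0 + M.L * s1 ∨ (s0 = s1 ∧ a0 ≠ a1) ∨ (s1 = s2 ∧ a1 ≠ a2) ∨
  (s0 = s2 ∧ a0 ≠ a2) ∨
  (s0 ≠ s1 ∧ M.vX a0 = M.vX a1 ∧ M.vY a0 = M.vY a1) ∨
  (s1 ≠ s2 ∧ M.vX a1 = M.vX a2 ∧ M.vY a1 = M.vY a2) ∨
  (s0 ≠ s2 ∧ M.vX a0 = M.vX a2 ∧ M.vY a0 = M.vY a2)

/-- A triple of marked points, in progression modulo the lattice, comes from the upper
level. -/
def Good (M : Map) (PP nU : ℕ) (mkU : ℕ → ℕ → Bool) (uXU uYU : ℕ → ℕ → ℕ) (uX uY : ℕ → ℕ)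
    (a0 r0 a1 r1 a2 r2 c : ℕ) : Prop :=
  (∃ s0 < 2, ∃ s1 < 2, ∃ s2 < 2, s0 + s2 + c = 2 * s1 + 1 ∧
    EqS M.al M.bX M.vX a0 a1 a2 (M.wX uX a0 r0) (M.wX uX a1 r1) (M.wX uX a2 r2) s0 s1 s2 ∧
    EqS M.al M.bY M.vY a0 a1 a2 (M.wY uY a0 r0) (M.wY uY a1 r1) (M.wY uY a2 r2) s0 s1 s2 ∧
    Side M PP a0 r0 a1 r1 a2 s0 s1 s2) ∨
  (∃ k < nU, (mkU k a0 = true ∧ mkU k a1 = true ∧ mkU k a2 = true) ∧ c = 1 ∧
    EqT M.al (uXU k) a0 a1 a2 (M.wX uX a0 r0) (M.wX uX a1 r1) (M.wX uX a2 r2) ∧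
    EqT M.al (uYU k) a0 a1 a2 (M.wY uY a0 r0) (M.wY uY a1 r1) (M.wY uY a2 r2) ∧
    ¬ (a0 = a1 ∧ a1 = a2))

/-- All triples in progression modulo the lattice are good. -/
def AllGood (M : Map) (PP nU : ℕ) (mkU : ℕ → ℕ → Bool) (uXU uYU : ℕ → ℕ → ℕ) (mk : ℕ → Bool)
    (uX uY : ℕ → ℕ) : Prop :=
  ∀ a0 r0 a1 r1 a2 r2 c : ℕ, a0 < M.n → a1 < M.n → a2 < M.n →
    r0 < M.L → r1 < M.L → r2 < M.L →
    mk (M.G a0 r0) = true → mk (M.G a1 r1) = true → mk (M.G a2 r2) = true →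
    r0 + r2 + M.L * c = 2 * r1 + M.L →
    M.wX uX a0 r0 + M.wX uX a2 r2 + M.bX * c ≡ 2 * M.wX uX a1 r1 + M.bX [MOD M.al] →
    M.wY uY a0 r0 + M.wY uY a2 r2 + M.bY * c ≡ 2 * M.wY uY a1 r1 + M.bY [MOD M.al] →
    Good M PP nU mkU uXU uYU uX uY a0 r0 a1 r1 a2 r2 c

/-- carry of a second difference -/
theorem carry (L m0 m1 m2 r0 r1 r2 : ℕ) (h0 : r0 < L) (h1 : r1 < L) (h2 : r2 < L)
    (h : (L * m0 + r0) + (L * m2 + r2) = 2 * (L * m1 + r1)) :
    ∃ c, m0 + m2 + 1 = 2 * m1 + c ∧ r0 + r2 + L * c = 2 * r1 + L := by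
  have hle : 2 * m1 ≤ m0 + m2 + 1 := by
    by_contra hcon
    push Not at hcon
    have h3 : L * (m0 + m2 + 2) ≤ L * (2 * m1) := Nat.mul_le_mul_left L (by omega)
    have h4 : L * (m0 + m2 + 2) = L * m0 + L * m2 + 2 * L := by ring
    have h5 : L * (2 * m1) = 2 * (L * m1) := by ring
    omega
  refine ⟨m0 + m2 + 1 - 2 * m1, by omega, ?_⟩
  obtain ⟨c, hc⟩ := Nat.exists_eq_add_of_le hle
  have : m0 + m2 + 1 - 2 * m1 = c := by omega
  rw [this]
  have h3 : L * (m0 + m2 + 1) = L * (2 * m1 + c) := by rw [hc]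
  have h4 : L * (m0 + m2 + 1) = L * m0 + L * m2 + L := by ring
  have h5 : L * (2 * m1 + c) = 2 * (L * m1) + L * c := by ring
  omega

theorem S_shift (c x : ℕ → ℕ) (m s : ℕ) (hs : s < 2) : S c x (m + s) = S c x m + s * c (x m) := by
  have : s = 0 ∨ s = 1 := by omega
  rcases this with rfl | rfl
  · simp
  · rw [S_succ]; ring

theorem key (al be m0 m1 m2 S0 S1 S2 w0 w1 w2 c s0 s1 s2 f0 f1 f2 : ℕ) (hal : 0 < al)
    (hm : m0 + m2 + 1 = 2 * m1 + c)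
    (hV : (be * m0 + al * S0 + w0) + (be * m2 + al * S2 + w2) = 2 * (be * m1 + al * S1 + w1))
    (hs : s0 + s2 + c = 2 * s1 + 1)
    (hw : w0 + w2 + 2 * (s1 * (be + al * f1)) =
      2 * w1 + s0 * (be + al * f0) + s2 * (be + al * f2)) :
    (S0 + s0 * f0) + (S2 + s2 * f2) = 2 * (S1 + s1 * f1) := by
  zify at *
  have hal' : (al : ℤ) ≠ 0 := by positivity
  apply mul_left_cancel₀ hal'
  linear_combination hV - hw - be * hm - be * hs

theorem key2 (al be m0 m1 m2 S0 S1 S2 w0 w1 w2 u0 u1 u2 : ℕ) (hal : 0 < al)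
    (hm : m0 + m2 = 2 * m1)
    (hV : (be * m0 + al * S0 + w0) + (be * m2 + al * S2 + w2) = 2 * (be * m1 + al * S1 + w1))
    (hw : w0 + w2 + 2 * (al * u1) = 2 * w1 + al * u0 + al * u2) :
    (S0 + u0) + (S2 + u2) = 2 * (S1 + u1) := by
  zify at *
  have hal' : (al : ℤ) ≠ 0 := by positivity
  apply mul_left_cancel₀ hal'
  linear_combination hV - hw - be * hm

theorem key3 (al be m0 m1 m2 S0 S1 S2 w0 w1 w2 c : ℕ)
    (hm : m0 + m2 + 1 = 2 * m1 + c)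
    (hV : (be * m0 + al * S0 + w0) + (be * m2 + al * S2 + w2) = 2 * (be * m1 + al * S1 + w1)) :
    w0 + w2 + be * c ≡ 2 * w1 + be [MOD al] := by
  have h : w0 + w2 + be * c + al * (S0 + S2) = 2 * w1 + be + al * (2 * S1) := by
    zify at *
    linear_combination hV - be * hm
  have h1 : w0 + w2 + be * c + al * (S0 + S2) ≡ w0 + w2 + be * c [MOD al] := by
    unfold Nat.ModEq; simp
  have h2 : 2 * w1 + be + al * (2 * S1) ≡ 2 * w1 + be [MOD al] := by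
    unfold Nat.ModEq; simp
  rw [h] at h1
  exact h1.symm.trans h2

theorem mono (L m0 m1 r0 r1 : ℕ) (hr1 : r1 < L) (h : L * m0 + r0 ≤ L * m1 + r1) :
    m0 ≤ m1 := by
  by_contra hcon
  push Not at hcon
  have h1 : L * (m1 + 1) ≤ L * m0 := Nat.mul_le_mul_left L hcon
  have h2 : L * (m1 + 1) = L * m1 + L := by ring
  omega

/-- Main descent lemma. -/
theorem descent (M : Map) (h : M.Ok) (PP nU : ℕ) (mkU : ℕ → ℕ → Bool)
    (uXU uYU : ℕ → ℕ → ℕ) (mk : ℕ → Bool) (uX uY : ℕ → ℕ)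
    (hg : AllGood M PP nU mkU uXU uYU mk uX uY) (x y : ℕ → ℕ) (hi : M.Img x y)
    (adj : ∀ n, ¬ (M.vX (x n) = M.vX (x (n + 1)) ∧ M.vY (x n) = M.vY (x (n + 1))))
    (j q : ℕ) (hq : PP ≤ q) (ht : Tpl M.cX M.cY y mk uX uY j q) :
    (∃ j' q', 0 < q' ∧ Tpl M.vX M.vY x (fun _ => true) (fun _ => 0) (fun _ => 0) j' q' ∧
      2 * (M.L * q') + 1 ≤ 2 * q + 2 * M.L) ∨
    (∃ k < nU, ∃ j' q', 0 < q' ∧ Tpl M.vX M.vY x (mkU k) (uXU k) (uYU k) j' q' ∧
      2 * (M.L * q') + 1 ≤ 2 * q + M.L) := by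
  obtain ⟨⟨t0, t1, t2⟩, e1, e2⟩ := ht
  have hL0 := h.L0
  set L := M.L with hLdef
  obtain ⟨m0, r0, hr0, en0⟩ : ∃ m r, r < L ∧ L * m + r = j :=
    ⟨j / L, j % L, Nat.mod_lt _ hL0, Nat.div_add_mod _ _⟩
  obtain ⟨m1, r1, hr1, en1⟩ : ∃ m r, r < L ∧ L * m + r = j + q :=
    ⟨(j + q) / L, (j + q) % L, Nat.mod_lt _ hL0, Nat.div_add_mod _ _⟩
  obtain ⟨m2, r2, hr2, en2⟩ : ∃ m r, r < L ∧ L * m + r = j + 2 * q :=
    ⟨(j + 2 * q) / L, (j + 2 * q) % L, Nat.mod_lt _ hL0, Nat.div_add_mod _ _⟩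
  have V0 := VX_image M h x y hi uX m0 r0 hr0
  have V1 := VX_image M h x y hi uX m1 r1 hr1
  have V2 := VX_image M h x y hi uX m2 r2 hr2
  have W0 := VY_image M h x y hi uY m0 r0 hr0
  have W1 := VY_image M h x y hi uY m1 r1 hr1
  have W2 := VY_image M h x y hi uY m2 r2 hr2
  have G0 := hi.2 m0 r0 hr0
  have G1 := hi.2 m1 r1 hr1
  have G2 := hi.2 m2 r2 hr2
  rw [← hLdef, en0] at V0 W0 G0
  rw [← hLdef, en1] at V1 W1 G1
  rw [← hLdef, en2] at V2 W2 G2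
  rw [V0, V1, V2] at e1
  rw [W0, W1, W2] at e2
  rw [G0] at t0
  rw [G1] at t1
  rw [G2] at t2
  obtain ⟨c, hc, hc'⟩ := carry L m0 m1 m2 r0 r1 r2 hr0 hr1 hr2 (by omega)
  have k1 := key3 _ _ _ _ _ _ _ _ _ _ _ _ hc e1
  have k2 := key3 _ _ _ _ _ _ _ _ _ _ _ _ hc e2
  have hgood := hg (x m0) r0 (x m1) r1 (x m2) r2 c (hi.1 _) (hi.1 _)
    (hi.1 _) hr0 hr1 hr2 t0 t1 t2 hc' k1 k2
  have m01 : m0 ≤ m1 := mono L m0 m1 r0 r1 hr1 (by omega)
  have m12 : m1 ≤ m2 := mono L m1 m2 r1 r2 hr2 (by omega)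
  rcases hgood with ⟨s0, hs0, s1, hs1, s2, hs2, f, gX, gY, hside⟩ |
    ⟨k, hk, ⟨b0, b1, b2⟩, f, gX, gY, hne⟩
  · have A1 := key _ _ _ _ _ _ _ _ _ _ _ _ _ _ _ _ _ _ h.al0 hc e1 f gX
    have A2 := key _ _ _ _ _ _ _ _ _ _ _ _ _ _ _ _ _ _ h.al0 hc e2 f gY
    rw [← S_shift _ x m0 s0 hs0, ← S_shift _ x m2 s2 hs2, ← S_shift _ x m1 s1 hs1] at A1
    rw [← S_shift _ x m0 s0 hs0, ← S_shift _ x m2 s2 hs2, ← S_shift _ x m1 s1 hs1] at A2
    have hle : m0 + s0 ≤ m1 + s1 := by omega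
    obtain ⟨q', hq'⟩ : ∃ q', m1 + s1 = m0 + s0 + q' := ⟨m1 + s1 - (m0 + s0), by omega⟩
    have p1 : m0 + s0 + q' = m1 + s1 := hq'.symm
    have p2 : m0 + s0 + 2 * q' = m2 + s2 := by omega
    have p3 : m1 + s1 + q' = m2 + s2 := by omega
    have l0 : L * (m0 + s0 + q') = L * (m1 + s1) := by rw [p1]
    have l1 : L * (m1 + s1 + q') = L * (m2 + s2) := by rw [p3]
    rw [Nat.mul_add, Nat.mul_add, Nat.mul_add] at l0
    rw [Nat.mul_add, Nat.mul_add, Nat.mul_add] at l1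
    have bs : ∀ s, s < 2 → L * s ≤ L := by
      intro s hs
      have : s = 0 ∨ s = 1 := by omega
      rcases this with rfl | rfl <;> simp
    have bs0 := bs s0 hs0
    have bs1 := bs s1 hs1
    have bs2 := bs s2 hs2
    rcases Nat.eq_zero_or_pos q' with hz | hpos
    · exfalso
      subst hz
      simp only [Nat.mul_zero, Nat.add_zero] at l0 l1 p1 p3
      rcases hside with hA | ⟨hB, hB'⟩ | ⟨hB, hB'⟩ | ⟨hB, hB'⟩ | ⟨hB, hB'⟩ | ⟨hB, hB'⟩ | ⟨hB, hB'⟩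
      · rw [← hLdef] at hA
        omega
      · have : m0 = m1 := by omega
        exact hB' (by rw [this])
      · have : m1 = m2 := by omega
        exact hB' (by rw [this])
      · have : m0 = m2 := by omega
        exact hB' (by rw [this])
      · have : m0 = m1 + 1 ∨ m1 = m0 + 1 := by omega
        rcases this with h1 | h1
        · apply adj m1
          rw [← h1]
          exact ⟨hB'.1.symm, hB'.2.symm⟩
        · apply adj m0
          rw [← h1]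
          exact hB'
      · have : m1 = m2 + 1 ∨ m2 = m1 + 1 := by omega
        rcases this with h1 | h1
        · apply adj m2
          rw [← h1]
          exact ⟨hB'.1.symm, hB'.2.symm⟩
        · apply adj m1
          rw [← h1]
          exact hB'
      · have : m0 = m2 + 1 ∨ m2 = m0 + 1 := by omega
        rcases this with h1 | h1
        · apply adj m2
          rw [← h1]
          exact ⟨hB'.1.symm, hB'.2.symm⟩
        · apply adj m0
          rw [← h1]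
          exact hB'
    · left
      refine ⟨m0 + s0, q', hpos, ⟨⟨rfl, rfl, rfl⟩, ?_, ?_⟩, ?_⟩
      · unfold V
        rw [p1, p2]
        simpa using A1
      · unfold V
        rw [p1, p2]
        simpa using A2
      · omega
  · subst f
    have A1 := key2 _ _ _ _ _ _ _ _ _ _ _ _ _ _ h.al0 (by omega) e1 gX
    have A2 := key2 _ _ _ _ _ _ _ _ _ _ _ _ _ _ h.al0 (by omega) e2 gY
    obtain ⟨q', hq'⟩ : ∃ q', m1 = m0 + q' := ⟨m1 - m0, by omega⟩
    have p1 : m0 + q' = m1 := hq'.symm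
    have p2 : m0 + 2 * q' = m2 := by omega
    have hpos : 0 < q' := by
      rcases Nat.eq_zero_or_pos q' with hz | hpos
      · exfalso
        apply hne
        have h1 : m0 = m1 := by omega
        have h2 : m1 = m2 := by omega
        exact ⟨by rw [h1], by rw [h2]⟩
      · exact hpos
    right
    refine ⟨k, hk, m0, q', hpos, ⟨⟨b0, ?_, ?_⟩, ?_, ?_⟩, ?_⟩
    · rw [p1]; exact b1
    · rw [p2]; exact b2
    · unfold V
      rw [p1, p2]
      exact A1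
    · unfold V
      rw [p1, p2]
      exact A2
    · have l1 : L * (m0 + 2 * q') = L * m2 := by rw [p2]
      have l2 : L * (m0 + 2 * q') = L * m0 + 2 * (L * q') := by ring
      omega

end Pool.Agent.H549R3.M2
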