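import Mathlib
import Pool.Agent.H549R3.Check
import Pool.Agent.H549R3.M2Level

set_option autoImplicit false

/-!
A checkable certificate for the hypothesis of the planar descent lemma.
-/

namespace Pool.Agent.H549R3.M2

open Pool.Agent.H549R3.Chk Pool.Agent.H549R3.Check

section
variable (n L al bX bY PP : ℕ) (vX vY : ℕ → ℕ) (wX wY : ℕ → ℕ → ℕ) (ok : ℕ → ℕ → Bool) (nU : ℕ)
  (mkU : ℕ → ℕ → Bool) (uXU uYU : ℕ → ℕ → ℕ) (T : List (ℕ × List (ℕ × ℕ))) (MK : ℕ)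

/-- one coordinate of a shifted progression -/
def eqS (al b : ℕ) (v : ℕ → ℕ) (a0 a1 a2 w0 w1 w2 s0 s1 s2 : ℕ) : Bool :=
  Nat.beq (w0 + w2 + 2 * (s1 * (b + al * v a1)))
    (2 * w1 + s0 * (b + al * v a0) + s2 * (b + al * v a2))

/-- one coordinate of a template -/
def eqT (al : ℕ) (u : ℕ → ℕ) (a0 a1 a2 w0 w1 w2 : ℕ) : Bool :=
  Nat.beq (w0 + w2 + 2 * (al * u a1)) (2 * w1 + al * u a0 + al * u a2)

/-- equal weights -/
def eqv (a b : ℕ) : Bool := and (Nat.beq (vX a) (vX b)) (Nat.beq (vY a) (vY b))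

/-- side condition -/
def sideB (a0 r0 a1 r1 a2 s0 s1 s2 : ℕ) : Bool :=
  or (Nat.blt (r1 + L * s0) (PP + r0 + L * s1))
    (or (and (Nat.beq s0 s1) (not (Nat.beq a0 a1)))
      (or (and (Nat.beq s1 s2) (not (Nat.beq a1 a2)))
        (or (and (Nat.beq s0 s2) (not (Nat.beq a0 a2)))
          (or (and (not (Nat.beq s0 s1)) (eqv vX vY a0 a1))
            (or (and (not (Nat.beq s1 s2)) (eqv vX vY a1 a2))
              (and (not (Nat.beq s0 s2)) (eqv vX vY a0 a2)))))))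

/-- shifted progressions -/
def zB (a0 r0 a1 r1 a2 r2 c s0 s1 s2 : ℕ) : Bool :=
  and (Nat.beq (s0 + s2 + c) (2 * s1 + 1))
    (and (eqS al bX vX a0 a1 a2 (wX a0 r0) (wX a1 r1) (wX a2 r2) s0 s1 s2)
      (and (eqS al bY vY a0 a1 a2 (wY a0 r0) (wY a1 r1) (wY a2 r2) s0 s1 s2)
        (sideB L PP vX vY a0 r0 a1 r1 a2 s0 s1 s2)))

/-- templates of the upper level -/
def xB (a0 r0 a1 r1 a2 r2 c k : ℕ) : Bool :=
  and (and (mkU k a0) (and (mkU k a1) (mkU k a2)))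
    (and (Nat.beq c 1)
      (and (eqT al (uXU k) a0 a1 a2 (wX a0 r0) (wX a1 r1) (wX a2 r2))
        (and (eqT al (uYU k) a0 a1 a2 (wY a0 r0) (wY a1 r1) (wY a2 r2))
          (not (and (Nat.beq a0 a1) (Nat.beq a1 a2))))))

/-- the triple is good -/
def goodB (a0 r0 a1 r1 a2 r2 c : ℕ) : Bool :=
  or (zB L al bX bY PP vX vY wX wY a0 r0 a1 r1 a2 r2 c 0 0 0)
    (or (zB L al bX bY PP vX vY wX wY a0 r0 a1 r1 a2 r2 c 1 1 1)
      (or (anyB nU (fun k => xB al wX wY mkU uXU uYU a0 r0 a1 r1 a2 r2 c k))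
        (anyB 2 fun s0 => anyB 2 fun s1 => anyB 2 fun s2 =>
          zB L al bX bY PP vX vY wX wY a0 r0 a1 r1 a2 r2 c s0 s1 s2)))

/-- the letter is allowed at the place and has the given residues -/
def atB (a r qX qY : ℕ) : Bool :=
  and (ok a r) (and (Nat.beq (wX a r % al) qX) (Nat.beq (wY a r % al) qY))

/-- all letters with given residues -/
def fullB (r0 r1 r2 c X0 Y0 X1 Y1 X2 Y2 : ℕ) : Bool :=
  allB n fun a0 => or (not (atB al wX wY ok a0 r0 X0 Y0))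
    (allB n fun a1 => or (not (atB al wX wY ok a1 r1 X1 Y1))
      (allB n fun a2 => or (not (atB al wX wY ok a2 r2 X2 Y2))
        (goodB L al bX bY PP vX vY wX wY nU mkU uXU uYU a0 r0 a1 r1 a2 r2 c)))

/-- bit of the table -/
def bit (i : ℕ) : Bool := Nat.beq ((MK >>> i) % 2) 1

/-- last step -/
def step (r0 r1 r2 c X0 Y0 X1 Y1 X2 Y2 : ℕ) : Bool :=
  or (not (bit MK (al * (al * r2 + X2) + Y2)))
    (fullB n L al bX bY PP vX vY wX wY ok nU mkU uXU uYU r0 r1 r2 c X0 Y0 X1 Y1 X2 Y2)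

/-- residues at two places -/
def inner (r0 : ℕ) (R0 : List (ℕ × ℕ)) (r1 : ℕ) (R1 : List (ℕ × ℕ)) (r2 c : ℕ) : Bool :=
  allL R0 fun p0 => allL R1 fun p1 =>
    step n L al bX bY PP vX vY wX wY ok nU mkU uXU uYU MK r0 r1 r2 c p0.1 p0.2 p1.1 p1.2
      ((2 * p1.1 + bX + al * (2 * bX + 2) - (p0.1 + bX * c)) % al)
      ((2 * p1.2 + bY + al * (2 * bY + 2) - (p0.2 + bY * c)) % al)

/-- the whole check, for given lists of first places -/
def mainB (T0 : List (ℕ × List (ℕ × ℕ))) : Bool :=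
  allL T0 fun p0 => allL T fun p1 =>
    inner n L al bX bY PP vX vY wX wY ok nU mkU uXU uYU MK p0.1 p0.2 p1.1 p1.2
      ((2 * p1.1 + L - p0.1) % L) ((2 * p1.1 + L - p0.1) / L)

/-- residues are listed -/
def covB : Bool :=
  allL T fun p => allB n fun a => or (not (ok a p.1))
    (anyL p.2 fun q => and (Nat.beq (wX a p.1 % al) q.1) (Nat.beq (wY a p.1 % al) q.2))

/-- residues are in the bit table -/
def bitB : Bool :=
  allB L fun r => allB n fun a => or (not (ok a r))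
    (bit MK (al * (al * r + wX a r % al) + wY a r % al))

end

theorem bq (a b : ℕ) : (Nat.beq a b = true) = (a = b) :=
  propext ⟨Nat.eq_of_beq_eq_true, fun h => by rw [h]; exact Nat.beq_refl b⟩

theorem sideB_spec (M : Map) (PP a0 r0 a1 r1 a2 s0 s1 s2 : ℕ)
    (h : sideB M.L PP M.vX M.vY a0 r0 a1 r1 a2 s0 s1 s2 = true) :
    Side M PP a0 r0 a1 r1 a2 s0 s1 s2 := by
  unfold sideB eqv at h
  unfold Side
  simp only [Bool.or_eq_true, Bool.and_eq_true, Bool.not_eq_true',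
    Nat.blt_eq, ← Bool.not_eq_true, bq] at h
  exact h

theorem zB_spec (M : Map) (PP : ℕ) (uX uY : ℕ → ℕ) (a0 r0 a1 r1 a2 r2 c s0 s1 s2 : ℕ)
    (h : zB M.L M.al M.bX M.bY PP M.vX M.vY (M.wX uX) (M.wY uY) a0 r0 a1 r1 a2 r2 c s0 s1 s2
      = true) :
    s0 + s2 + c = 2 * s1 + 1 ∧
    EqS M.al M.bX M.vX a0 a1 a2 (M.wX uX a0 r0) (M.wX uX a1 r1) (M.wX uX a2 r2) s0 s1 s2 ∧
    EqS M.al M.bY M.vY a0 a1 a2 (M.wY uY a0 r0) (M.wY uY a1 r1) (M.wY uY a2 r2) s0 s1 s2 ∧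
    Side M PP a0 r0 a1 r1 a2 s0 s1 s2 := by
  unfold zB at h
  rw [Bool.and_eq_true, Bool.and_eq_true, Bool.and_eq_true] at h
  exact ⟨Nat.eq_of_beq_eq_true h.1, Nat.eq_of_beq_eq_true h.2.1, Nat.eq_of_beq_eq_true h.2.2.1,
    sideB_spec M PP _ _ _ _ _ _ _ _ h.2.2.2⟩

theorem goodB_spec (M : Map) (PP nU : ℕ) (mkU : ℕ → ℕ → Bool) (uXU uYU : ℕ → ℕ → ℕ)
    (uX uY : ℕ → ℕ) (a0 r0 a1 r1 a2 r2 c : ℕ)
    (h : goodB M.L M.al M.bX M.bY PP M.vX M.vY (M.wX uX) (M.wY uY) nU mkU uXU uYU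
      a0 r0 a1 r1 a2 r2 c = true) :
    Good M PP nU mkU uXU uYU uX uY a0 r0 a1 r1 a2 r2 c := by
  unfold goodB at h
  rw [Bool.or_eq_true, Bool.or_eq_true, Bool.or_eq_true] at h
  rcases h with h | h | h | h
  · left
    exact ⟨0, by norm_num, 0, by norm_num, 0, by norm_num,
      zB_spec M PP uX uY _ _ _ _ _ _ _ _ _ _ h⟩
  · left
    exact ⟨1, by norm_num, 1, by norm_num, 1, by norm_num,
      zB_spec M PP uX uY _ _ _ _ _ _ _ _ _ _ h⟩
  · right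
    obtain ⟨k, hk, hx⟩ := anyB_spec _ _ h
    unfold xB at hx
    simp only [Bool.and_eq_true, Bool.not_eq_true'] at hx
    obtain ⟨⟨m0, m1, m2⟩, e, f1, f2, f3⟩ := hx
    refine ⟨k, hk, ⟨m0, m1, m2⟩, Nat.eq_of_beq_eq_true e, Nat.eq_of_beq_eq_true f1,
      Nat.eq_of_beq_eq_true f2, ?_⟩
    rintro ⟨g1, g2⟩
    subst g1
    subst g2
    rw [Nat.beq_refl] at f3
    exact absurd f3 (by decide)
  · left
    obtain ⟨s0, hs0, h⟩ := anyB_spec _ _ h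
    obtain ⟨s1, hs1, h⟩ := anyB_spec _ _ h
    obtain ⟨s2, hs2, h⟩ := anyB_spec _ _ h
    exact ⟨s0, hs0, s1, hs1, s2, hs2, zB_spec M PP uX uY _ _ _ _ _ _ _ _ _ _ h⟩

theorem sound (M : Map) (hM : M.Ok) (PP nU : ℕ) (mkU : ℕ → ℕ → Bool) (uXU uYU : ℕ → ℕ → ℕ)
    (mk : ℕ → Bool) (uX uY : ℕ → ℕ) (T : List (ℕ × List (ℕ × ℕ))) (MK : ℕ)
    (hT : T.map Prod.fst = List.range M.L)
    (hcov : covB M.n M.al (M.wX uX) (M.wY uY) (fun a r => mk (M.G a r)) T = true)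
    (hbit : bitB M.n M.L M.al (M.wX uX) (M.wY uY) (fun a r => mk (M.G a r)) MK = true)
    (hmain : ∀ p ∈ T, ∃ T0, p ∈ T0 ∧ mainB M.n M.L M.al M.bX M.bY PP M.vX M.vY (M.wX uX)
      (M.wY uY) (fun a r => mk (M.G a r)) nU mkU uXU uYU T MK T0 = true) :
    AllGood M PP nU mkU uXU uYU mk uX uY := by
  intro a0 r0 a1 r1 a2 r2 c ha0 ha1 ha2 hr0 hr1 hr2 k0 k1 k2 e f1 f2
  have hL := hM.L0
  have hal := hM.al0
  have cle : c ≤ 2 := by
    by_contra hcon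
    push Not at hcon
    have : M.L * 3 ≤ M.L * c := Nat.mul_le_mul_left _ hcon
    omega
  have p2 : 2 * r1 + M.L - r0 = r2 + M.L * c := by omega
  have p2m : (2 * r1 + M.L - r0) % M.L = r2 := by
    rw [p2, Nat.add_mul_mod_self_left, Nat.mod_eq_of_lt hr2]
  have p2d : (2 * r1 + M.L - r0) / M.L = c := by
    rw [p2, Nat.add_mul_div_left _ _ hL, Nat.div_eq_of_lt hr2, zero_add]
  have q2 := res_eq M.al M.bX _ _ _ c cle hal f1
  have q3 := res_eq M.al M.bY _ _ _ c cle hal f2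
  have mem : ∀ r < M.L, ∀ a < M.n, mk (M.G a r) = true →
      ∃ R, (r, R) ∈ T ∧ (M.wX uX a r % M.al, M.wY uY a r % M.al) ∈ R := by
    intro r hr a ha hk
    have h1 : r ∈ T.map Prod.fst := by rw [hT]; exact List.mem_range.2 hr
    obtain ⟨p, hp, hpr⟩ := List.mem_map.1 h1
    refine ⟨p.2, by rw [← hpr]; exact hp, ?_⟩
    have h2 := allL_spec _ _ hcov p hp
    have h3 := allB_spec _ _ h2 a ha
    have h4 := imp_spec _ _ h3 (by rw [hpr]; exact hk)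
    obtain ⟨q, hq, hqe⟩ := anyL_spec _ _ h4
    rw [Bool.and_eq_true] at hqe
    have h5 := Nat.eq_of_beq_eq_true hqe.1
    have h6 := Nat.eq_of_beq_eq_true hqe.2
    rw [hpr] at h5 h6
    rw [h5, h6]; exact hq
  obtain ⟨R0, hR0, hm0⟩ := mem r0 hr0 a0 ha0 k0
  obtain ⟨R1, hR1, hm1⟩ := mem r1 hr1 a1 ha1 k1
  have B2 : bit MK (M.al * (M.al * r2 + M.wX uX a2 r2 % M.al) + M.wY uY a2 r2 % M.al) = true := by
    have h1 := allB_spec _ _ hbit r2 hr2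
    have h2 := allB_spec _ _ h1 a2 ha2
    exact imp_spec _ _ h2 k2
  obtain ⟨T0, hT0, hmain0⟩ := hmain _ hR0
  have s1 := allL_spec _ _ hmain0 (r0, R0) hT0
  have s2 := allL_spec _ _ s1 (r1, R1) hR1
  simp only [p2m, p2d] at s2
  have s3 := allL_spec _ _ s2 _ hm0
  have s4 := allL_spec _ _ s3 _ hm1
  simp only at s4
  rw [← q2, ← q3] at s4
  have s5 := imp_spec _ _ s4 B2
  have at' : ∀ a r, mk (M.G a r) = true → atB M.al (M.wX uX) (M.wY uY)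
      (fun a r => mk (M.G a r)) a r (M.wX uX a r % M.al) (M.wY uY a r % M.al) = true := by
    intro a r hk
    unfold atB
    rw [Bool.and_eq_true, Bool.and_eq_true]
    exact ⟨hk, Nat.beq_refl _, Nat.beq_refl _⟩
  have t0 := imp_spec _ _ (allB_spec _ _ s5 a0 ha0) (at' a0 r0 k0)
  have t1 := imp_spec _ _ (allB_spec _ _ t0 a1 ha1) (at' a1 r1 k1)
  have t2 := imp_spec _ _ (allB_spec _ _ t1 a2 ha2) (at' a2 r2 k2)
  exact goodB_spec M PP nU mkU uXU uYU uX uY _ _ _ _ _ _ _ t2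

end Pool.Agent.H549R3.M2
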