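import Mathlib
import Pool.Agent.H549R3.M2F
set_option autoImplicit false

/-!
The 301-uniform map to the three letter alphabet: checks, part 0.
-/

namespace Pool.Agent.H549R3.M2.M2F

open Pool.Agent.H549R3.M2 Pool.Agent.H549R3.M2.Fam

theorem h0 : midB 301 29 72 172 4 vX vY 3 mkZ uXZ uYZ T (T.reverse ++ T.reverse) R0
    = true := by decide +kernel

theorem h4 : midB 301 29 72 172 4 vX vY 3 mkZ uXZ uYZ T (T.reverse ++ T.reverse) R4
    = true := by decide +kernel

theorem h8 : midB 301 29 72 172 4 vX vY 3 mkZ uXZ uYZ T (T.reverse ++ T.reverse) R8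
    = true := by decide +kernel

theorem h12 : midB 301 29 72 172 4 vX vY 3 mkZ uXZ uYZ T (T.reverse ++ T.reverse) R12
    = true := by decide +kernel

theorem h16 : midB 301 29 72 172 4 vX vY 3 mkZ uXZ uYZ T (T.reverse ++ T.reverse) R16
    = true := by decide +kernel

theorem h20 : midB 301 29 72 172 4 vX vY 3 mkZ uXZ uYZ T (T.reverse ++ T.reverse) R20
    = true := by decide +kernel

theorem h24 : midB 301 29 72 172 4 vX vY 3 mkZ uXZ uYZ T (T.reverse ++ T.reverse) R24
    = true := by decide +kernel

theorem h28 : midB 301 29 72 172 4 vX vY 3 mkZ uXZ uYZ T (T.reverse ++ T.reverse) R28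
    = true := by decide +kernel

theorem h32 : midB 301 29 72 172 4 vX vY 3 mkZ uXZ uYZ T (T.reverse ++ T.reverse) R32
    = true := by decide +kernel

theorem h36 : midB 301 29 72 172 4 vX vY 3 mkZ uXZ uYZ T (T.reverse ++ T.reverse) R36
    = true := by decide +kernel

theorem h40 : midB 301 29 72 172 4 vX vY 3 mkZ uXZ uYZ T (T.reverse ++ T.reverse) R40
    = true := by decide +kernel

end Pool.Agent.H549R3.M2.M2F
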