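import Mathlib
import Pool.Agent.H549R3.M2F
set_option autoImplicit false

/-!
The 301-uniform map to the three letter alphabet: checks, part 1.
-/

namespace Pool.Agent.H549R3.M2.M2F

open Pool.Agent.H549R3.M2 Pool.Agent.H549R3.M2.Fam

theorem h1 : midB 301 29 72 172 4 vX vY 3 mkZ uXZ uYZ T (T.reverse ++ T.reverse) R1
    = true := by decide +kernel

theorem h5 : midB 301 29 72 172 4 vX vY 3 mkZ uXZ uYZ T (T.reverse ++ T.reverse) R5
    = true := by decide +kernel

theorem h9 : midB 301 29 72 172 4 vX vY 3 mkZ uXZ uYZ T (T.reverse ++ T.reverse) R9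
    = true := by decide +kernel

theorem h13 : midB 301 29 72 172 4 vX vY 3 mkZ uXZ uYZ T (T.reverse ++ T.reverse) R13
    = true := by decide +kernel

theorem h17 : midB 301 29 72 172 4 vX vY 3 mkZ uXZ uYZ T (T.reverse ++ T.reverse) R17
    = true := by decide +kernel

theorem h21 : midB 301 29 72 172 4 vX vY 3 mkZ uXZ uYZ T (T.reverse ++ T.reverse) R21
    = true := by decide +kernel

theorem h25 : midB 301 29 72 172 4 vX vY 3 mkZ uXZ uYZ T (T.reverse ++ T.reverse) R25
    = true := by decide +kernel

theorem h29 : midB 301 29 72 172 4 vX vY 3 mkZ uXZ uYZ T (T.reverse ++ T.reverse) R29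
    = true := by decide +kernel

theorem h33 : midB 301 29 72 172 4 vX vY 3 mkZ uXZ uYZ T (T.reverse ++ T.reverse) R33
    = true := by decide +kernel

theorem h37 : midB 301 29 72 172 4 vX vY 3 mkZ uXZ uYZ T (T.reverse ++ T.reverse) R37
    = true := by decide +kernel

theorem h41 : midB 301 29 72 172 4 vX vY 3 mkZ uXZ uYZ T (T.reverse ++ T.reverse) R41
    = true := by decide +kernel

end Pool.Agent.H549R3.M2.M2F
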