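import Mathlib
import Pool.Agent.H549R3.M2F
set_option autoImplicit false

/-!
The 301-uniform map to the three letter alphabet: checks, part 2.
-/

namespace Pool.Agent.H549R3.M2.M2F

open Pool.Agent.H549R3.M2 Pool.Agent.H549R3.M2.Fam

theorem h2 : midB 301 29 72 172 4 vX vY 3 mkZ uXZ uYZ T (T.reverse ++ T.reverse) R2
    = true := by decide +kernel

theorem h6 : midB 301 29 72 172 4 vX vY 3 mkZ uXZ uYZ T (T.reverse ++ T.reverse) R6
    = true := by decide +kernel

theorem h10 : midB 301 29 72 172 4 vX vY 3 mkZ uXZ uYZ T (T.reverse ++ T.reverse) R10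
    = true := by decide +kernel

theorem h14 : midB 301 29 72 172 4 vX vY 3 mkZ uXZ uYZ T (T.reverse ++ T.reverse) R14
    = true := by decide +kernel

theorem h18 : midB 301 29 72 172 4 vX vY 3 mkZ uXZ uYZ T (T.reverse ++ T.reverse) R18
    = true := by decide +kernel

theorem h22 : midB 301 29 72 172 4 vX vY 3 mkZ uXZ uYZ T (T.reverse ++ T.reverse) R22
    = true := by decide +kernel

theorem h26 : midB 301 29 72 172 4 vX vY 3 mkZ uXZ uYZ T (T.reverse ++ T.reverse) R26
    = true := by decide +kernel

theorem h30 : midB 301 29 72 172 4 vX vY 3 mkZ uXZ uYZ T (T.reverse ++ T.reverse) R30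
    = true := by decide +kernel

theorem h34 : midB 301 29 72 172 4 vX vY 3 mkZ uXZ uYZ T (T.reverse ++ T.reverse) R34
    = true := by decide +kernel

theorem h38 : midB 301 29 72 172 4 vX vY 3 mkZ uXZ uYZ T (T.reverse ++ T.reverse) R38
    = true := by decide +kernel

theorem h42 : midB 301 29 72 172 4 vX vY 3 mkZ uXZ uYZ T (T.reverse ++ T.reverse) R42
    = true := by decide +kernel

end Pool.Agent.H549R3.M2.M2F
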