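import Mathlib
import Pool.Agent.H549R3.M2F
set_option autoImplicit false

/-!
The 301-uniform map to the three letter alphabet: checks, part 3.
-/

namespace Pool.Agent.H549R3.M2.M2F

open Pool.Agent.H549R3.M2 Pool.Agent.H549R3.M2.Fam

theorem h3 : midB 301 29 72 172 4 vX vY 3 mkZ uXZ uYZ T (T.reverse ++ T.reverse) R3
    = true := by decide +kernel

theorem h7 : midB 301 29 72 172 4 vX vY 3 mkZ uXZ uYZ T (T.reverse ++ T.reverse) R7
    = true := by decide +kernel

theorem h11 : midB 301 29 72 172 4 vX vY 3 mkZ uXZ uYZ T (T.reverse ++ T.reverse) R11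
    = true := by decide +kernel

theorem h15 : midB 301 29 72 172 4 vX vY 3 mkZ uXZ uYZ T (T.reverse ++ T.reverse) R15
    = true := by decide +kernel

theorem h19 : midB 301 29 72 172 4 vX vY 3 mkZ uXZ uYZ T (T.reverse ++ T.reverse) R19
    = true := by decide +kernel

theorem h23 : midB 301 29 72 172 4 vX vY 3 mkZ uXZ uYZ T (T.reverse ++ T.reverse) R23
    = true := by decide +kernel

theorem h27 : midB 301 29 72 172 4 vX vY 3 mkZ uXZ uYZ T (T.reverse ++ T.reverse) R27
    = true := by decide +kernel

theorem h31 : midB 301 29 72 172 4 vX vY 3 mkZ uXZ uYZ T (T.reverse ++ T.reverse) R31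
    = true := by decide +kernel

theorem h35 : midB 301 29 72 172 4 vX vY 3 mkZ uXZ uYZ T (T.reverse ++ T.reverse) R35
    = true := by decide +kernel

theorem h39 : midB 301 29 72 172 4 vX vY 3 mkZ uXZ uYZ T (T.reverse ++ T.reverse) R39
    = true := by decide +kernel

end Pool.Agent.H549R3.M2.M2F
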