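import Mathlib
import Pool.Agent.H549R3.M2Fc0
import Pool.Agent.H549R3.M2Fc1
import Pool.Agent.H549R3.M2Fc2
import Pool.Agent.H549R3.M2Fc3
set_option autoImplicit false

/-!
The 301-uniform map to the three letter alphabet: the certificate.
-/

namespace Pool.Agent.H549R3.M2.M2F

open Pool.Agent.H549R3.M2 Pool.Agent.H549R3.M2.Fam

theorem hmain (p : Row) (hp : p ∈ T) : ∃ T1, p ∈ T1 ∧ midB 301 29 72 172 4 vX vY 3 mkZ uXZ uYZ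
    T (T.reverse ++ T.reverse) T1 = true := by
  rcases memT p hp with h | h | h | h | h | h | h | h | h | h | h | h | h | h | h | h | h | h | h | h | h | h | h | h | h | h | h | h | h | h | h | h | h | h | h | h | h | h | h | h | h | h | h
  · exact ⟨R0, h, h0⟩
  · exact ⟨R1, h, h1⟩
  · exact ⟨R2, h, h2⟩
  · exact ⟨R3, h, h3⟩
  · exact ⟨R4, h, h4⟩
  · exact ⟨R5, h, h5⟩
  · exact ⟨R6, h, h6⟩
  · exact ⟨R7, h, h7⟩
  · exact ⟨R8, h, h8⟩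
  · exact ⟨R9, h, h9⟩
  · exact ⟨R10, h, h10⟩
  · exact ⟨R11, h, h11⟩
  · exact ⟨R12, h, h12⟩
  · exact ⟨R13, h, h13⟩
  · exact ⟨R14, h, h14⟩
  · exact ⟨R15, h, h15⟩
  · exact ⟨R16, h, h16⟩
  · exact ⟨R17, h, h17⟩
  · exact ⟨R18, h, h18⟩
  · exact ⟨R19, h, h19⟩
  · exact ⟨R20, h, h20⟩
  · exact ⟨R21, h, h21⟩
  · exact ⟨R22, h, h22⟩
  · exact ⟨R23, h, h23⟩
  · exact ⟨R24, h, h24⟩
  · exact ⟨R25, h, h25⟩
  · exact ⟨R26, h, h26⟩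
  · exact ⟨R27, h, h27⟩
  · exact ⟨R28, h, h28⟩
  · exact ⟨R29, h, h29⟩
  · exact ⟨R30, h, h30⟩
  · exact ⟨R31, h, h31⟩
  · exact ⟨R32, h, h32⟩
  · exact ⟨R33, h, h33⟩
  · exact ⟨R34, h, h34⟩
  · exact ⟨R35, h, h35⟩
  · exact ⟨R36, h, h36⟩
  · exact ⟨R37, h, h37⟩
  · exact ⟨R38, h, h38⟩
  · exact ⟨R39, h, h39⟩
  · exact ⟨R40, h, h40⟩
  · exact ⟨R41, h, h41⟩
  · exact ⟨R42, h, h42⟩

theorem all0 : AllGood M 4 3 mkZ uXZ uYZ mkT uT uT :=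
  sound2 M okM 4 3 4 16 mkZ uXZ uYZ mkT uT uT (fun _ => rfl) (fun _ => rfl) T hk.1 hk.2 hT
    (Check.allL_spec _ _ hrow) hmain

end Pool.Agent.H549R3.M2.M2F
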