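import Mathlib

set_option autoImplicit false

/-!
The template families for the planar maps.
-/

namespace Pool.Agent.H549R3.M2.Fam

/-- weights of the eight letters -/
def vX (a : ℕ) : ℕ := (38036 >>> (2 * a)) % 4

/-- weights of the eight letters -/
def vY (a : ℕ) : ℕ := (42320 >>> (2 * a)) % 4

/-- weights of the three letters -/
def tX (a : ℕ) : ℕ := (1 >>> a) % 2

/-- weights of the three letters -/
def tY (a : ℕ) : ℕ := (3 >>> a) % 2

/-- masks for words over eight letters -/
def mkZ (k a : ℕ) : Bool :=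
  cond (Nat.beq k 0) true
    (cond (Nat.beq k 1) (Nat.beq ((51 >>> a) % 2) 1) (Nat.beq ((204 >>> a) % 2) 1))

/-- shifts for words over eight letters -/
def uXZ (_ _ : ℕ) : ℕ := 0

/-- shifts for words over eight letters -/
def uYZ (k a : ℕ) : ℕ := cond (Nat.beq k 0) 0 ((240 >>> a) % 2)

/-- full mask -/
def mkT (_ : ℕ) : Bool := true

/-- no shift -/
def uT (_ : ℕ) : ℕ := 0

end Pool.Agent.H549R3.M2.Fam
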