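import Mathlib
import Pool.Agent.H549R3.M2Check

set_option autoImplicit false

/-!
A faster certificate for the planar descent lemma, without masks and marks.
-/

namespace Pool.Agent.H549R3.M2

open Pool.Agent.H549R3.Chk Pool.Agent.H549R3.Check

/-- conjunction over pairs of entries of two lists -/
def allZ {α β : Type} (f : α → β → Bool) (l : List α) : List β → Bool :=
  List.rec (fun _ => true)
    (fun a _ ih m => List.rec (motive := fun _ => Bool) false (fun b m' _ => and (f a b) (ih m')) m)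
    l

theorem allZ_spec {α β : Type} (f : α → β → Bool) (l : List α) :
    ∀ m : List β, allZ f l m = true → ∀ a ∈ l, ∃ b ∈ m, f a b = true := by
  induction l with
  | nil => intro m _ a ha; simp at ha
  | cons a l ih =>
    intro m h
    cases m with
    | nil => exact absurd h (by simp [allZ])
    | cons b m =>
      have h' : (f a b && allZ f l m) = true := h
      rw [Bool.and_eq_true] at h'
      intro a' ha'
      rcases List.mem_cons.1 ha' with h1 | h1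
      · rw [h1]
        exact ⟨b, by simp, h'.1⟩
      · obtain ⟨b', hb', hf⟩ := ih m h'.2 a' h1
        exact ⟨b', by simp [hb'], hf⟩

/-- drop entries -/
def dropR {α : Type} (n : ℕ) : List α → List α :=
  Nat.rec (fun l => l) (fun _ ih l => ih (List.rec [] (fun _ t _ => t) l)) n

theorem dropR_mem {α : Type} (n : ℕ) : ∀ (l : List α) (a : α), a ∈ dropR n l → a ∈ l := by
  induction n with
  | zero => intro l a h; exact h
  | succ n ih =>
    intro l a h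
    cases l with
    | nil => exact ih [] a h
    | cons b l => exact List.mem_cons_of_mem _ (ih l a h)

/-- A class: code, code of the middle, letters with their values. -/
abbrev Cls := ℕ × (ℕ × List (ℕ × (ℕ × ℕ)))

/-- A row: place, classes, bit mask. -/
abbrev Row := ℕ × (List Cls × ℕ)

section
variable (n L al bX bY PP kX kY : ℕ) (vX vY : ℕ → ℕ) (PX PY : ℕ → ℕ → ℕ) (nU : ℕ)
  (mkU : ℕ → ℕ → Bool) (uXU uYU : ℕ → ℕ → ℕ)

/-- normalised residue -/
def nz (al k : ℕ) (P : ℕ → ℕ → ℕ) (a r : ℕ) : ℕ := (P a r + k * r) % al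

/-- the row is correct -/
def rowB (p : Row) : Bool :=
  allB n fun a =>
    and (anyL p.2.1 fun k =>
      and (Nat.beq k.1 (2 * al * nz al kX PX a p.1 + nz al kY PY a p.1))
        (and (Nat.beq k.2.1 (2 * al * ((2 * nz al kX PX a p.1) % al + al) +
            ((2 * nz al kY PY a p.1) % al + al)))
          (anyL k.2.2 fun t => and (Nat.beq t.1 a)
            (and (Nat.beq t.2.1 (PX a p.1)) (Nat.beq t.2.2 (PY a p.1))))))
      (and (bit p.2.2 (2 * al * nz al kX PX a p.1 + nz al kY PY a p.1))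
        (and (bit p.2.2 (2 * al * (nz al kX PX a p.1 + al) + nz al kY PY a p.1))
          (and (bit p.2.2 (2 * al * nz al kX PX a p.1 + (nz al kY PY a p.1 + al)))
            (bit p.2.2 (2 * al * (nz al kX PX a p.1 + al) + (nz al kY PY a p.1 + al))))))

/-- shifted progressions -/
def zV (a0 r0 x0 y0 a1 r1 x1 y1 a2 x2 y2 c s0 s1 s2 : ℕ) : Bool :=
  and (Nat.beq (s0 + s2 + c) (2 * s1 + 1))
    (and (eqS al bX vX a0 a1 a2 x0 x1 x2 s0 s1 s2)
      (and (eqS al bY vY a0 a1 a2 y0 y1 y2 s0 s1 s2)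
        (sideB L PP vX vY a0 r0 a1 r1 a2 s0 s1 s2)))

/-- templates of the upper level -/
def xV (a0 x0 y0 a1 x1 y1 a2 x2 y2 c k : ℕ) : Bool :=
  and (and (mkU k a0) (and (mkU k a1) (mkU k a2)))
    (and (Nat.beq c 1)
      (and (eqT al (uXU k) a0 a1 a2 x0 x1 x2)
        (and (eqT al (uYU k) a0 a1 a2 y0 y1 y2)
          (not (and (Nat.beq a0 a1) (Nat.beq a1 a2))))))

/-- the triple is good -/
def goodV (a0 r0 x0 y0 a1 r1 x1 y1 a2 x2 y2 c : ℕ) : Bool :=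
  or (zV L al bX bY PP vX vY a0 r0 x0 y0 a1 r1 x1 y1 a2 x2 y2 c 0 0 0)
    (or (zV L al bX bY PP vX vY a0 r0 x0 y0 a1 r1 x1 y1 a2 x2 y2 c 1 1 1)
      (or (anyB nU (fun k => xV al mkU uXU uYU a0 x0 y0 a1 x1 y1 a2 x2 y2 c k))
        (anyB 2 fun s0 => anyB 2 fun s1 => anyB 2 fun s2 =>
          zV L al bX bY PP vX vY a0 r0 x0 y0 a1 r1 x1 y1 a2 x2 y2 c s0 s1 s2)))

/-- the code of the third point -/
def apB (d c2 : ℕ) : Bool :=
  or (Nat.beq d c2) (or (Nat.beq d (c2 + al)) (or (Nat.beq d (c2 + 2 * al * al))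
    (Nat.beq d (c2 + 2 * al * al + al))))

/-- a hit -/
def hitB (r0 r1 c d : ℕ) (l0 l1 : List (ℕ × (ℕ × ℕ))) (K2 : List Cls) : Bool :=
  allL K2 fun k2 => or (not (apB al d k2.1))
    (allL l0 fun t0 => allL l1 fun t1 => allL k2.2.2 fun t2 =>
      goodV L al bX bY PP vX vY nU mkU uXU uYU t0.1 r0 t0.2.1 t0.2.2 t1.1 r1 t1.2.1 t1.2.2
        t2.1 t2.2.1 t2.2.2 c)

/-- one pair of rows with a middle row -/
def pairB (p1 p0 p2 : Row) : Bool :=
  and (Nat.beq ((p0.1 + p2.1) % L) ((2 * p1.1) % L))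
    (allL p0.2.1 fun k0 => allL p1.2.1 fun k1 =>
      or (not (bit p2.2.2 (k1.2.1 - k0.1)))
        (hitB L al bX bY PP vX vY nU mkU uXU uYU p0.1 p1.1
          ((2 * p1.1 + L - (p0.1 + p2.1)) / L) (k1.2.1 - k0.1) k0.2.2 k1.2.2 p2.2.1))

/-- all pairs of rows for the given middle rows -/
def midB (T RR T1 : List Row) : Bool :=
  allL T1 fun p1 => allZ
    (fun p0 p2 => pairB L al bX bY PP vX vY nU mkU uXU uYU p1 p0 p2) T
    (dropR (L - 1 - (2 * p1.1) % L) RR)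

end

theorem nz_ap (al L b k : ℕ) (hk : (k * L + b) % al = 0) (w0 w1 w2 r0 r1 r2 c : ℕ)
    (hr : r0 + r2 + L * c = 2 * r1 + L)
    (h : w0 + w2 + b * c ≡ 2 * w1 + b [MOD al]) :
    (w0 + k * r0) % al + (w2 + k * r2) % al ≡ 2 * ((w1 + k * r1) % al) [MOD al] := by
  have h0 : k * L + b ≡ 0 [MOD al] := by
    unfold Nat.ModEq
    simpa using hk
  have e1 : (w0 + k * r0) % al + (w2 + k * r2) % al ≡ (w0 + k * r0) + (w2 + k * r2) [MOD al] :=
    Nat.ModEq.add (Nat.mod_modEq _ _) (Nat.mod_modEq _ _)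
  have e2 : 2 * ((w1 + k * r1) % al) ≡ 2 * (w1 + k * r1) [MOD al] :=
    (Nat.mod_modEq _ _).mul_left 2
  refine e1.trans (Nat.ModEq.trans ?_ e2.symm)
  have h1 : k * L * c + b * c ≡ 0 [MOD al] := by
    have := h0.mul_right c
    simpa [Nat.add_mul] using this
  -- add (b + k L) * stuff on both sides
  have h2 : (w0 + k * r0) + (w2 + k * r2) + (k * L * c + b * c) =
      (w0 + w2 + b * c) + k * (r0 + r2 + L * c) := by ring
  have h3 : (w0 + w2 + b * c) + k * (r0 + r2 + L * c) ≡ (2 * w1 + b) + k * (2 * r1 + L)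
      [MOD al] := by
    rw [hr]
    exact h.add_right _
  have h4 : (2 * w1 + b) + k * (2 * r1 + L) = 2 * (w1 + k * r1) + (k * L + b) := by ring
  have h5 : 2 * (w1 + k * r1) + (k * L + b) ≡ 2 * (w1 + k * r1) [MOD al] := by
    simpa using h0.add_left (2 * (w1 + k * r1))
  have h6 : (w0 + k * r0) + (w2 + k * r2) + (k * L * c + b * c) ≡
      (w0 + k * r0) + (w2 + k * r2) [MOD al] := by
    simpa using h1.add_left ((w0 + k * r0) + (w2 + k * r2))
  rw [h2] at h6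
  rw [h4] at h3
  exact h6.symm.trans (h3.trans h5)

/-- the difference of codes -/
theorem diff_cases (al z0 z1 z2 : ℕ) (h0 : z0 < al) (h2 : z2 < al)
    (h : z0 + z2 ≡ 2 * z1 [MOD al]) :
    z0 ≤ (2 * z1) % al + al ∧
      ((2 * z1) % al + al - z0 = z2 ∨ (2 * z1) % al + al - z0 = z2 + al) := by
  have hal : 0 < al := by omega
  have h1 : (z0 + z2) % al = (2 * z1) % al := h
  have h3 := Nat.div_add_mod (z0 + z2) al
  obtain ⟨Q, hQ⟩ : ∃ Q, Q = (z0 + z2) / al := ⟨_, rfl⟩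
  have h4 : Q < 2 := by
    rw [hQ, Nat.div_lt_iff_lt_mul hal]
    omega
  rw [← hQ, h1] at h3
  have h5 : Q = 0 ∨ Q = 1 := by omega
  rcases h5 with h5 | h5
  · subst h5
    rw [Nat.mul_zero] at h3
    refine ⟨by omega, ?_⟩
    right
    omega
  · subst h5
    rw [Nat.mul_one] at h3
    refine ⟨by omega, ?_⟩
    left
    omega

theorem sound2 (M : Map) (hM : M.Ok) (PP nU kX kY : ℕ) (mkU : ℕ → ℕ → Bool)
    (uXU uYU : ℕ → ℕ → ℕ) (mk : ℕ → Bool) (uX uY : ℕ → ℕ) (huX : ∀ a, uX a = 0)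
    (huY : ∀ a, uY a = 0) (T : List Row) (hkX : (kX * M.L + M.bX) % M.al = 0)
    (hkY : (kY * M.L + M.bY) % M.al = 0)
    (hT : T.map Prod.fst = List.range M.L)
    (hrow : ∀ p ∈ T, rowB M.n M.al kX kY M.PX M.PY p = true)
    (hmain : ∀ p ∈ T, ∃ T1, p ∈ T1 ∧ midB M.L M.al M.bX M.bY PP M.vX M.vY nU mkU uXU uYU
      T (T.reverse ++ T.reverse) T1 = true) :
    AllGood M PP nU mkU uXU uYU mk uX uY := by
  intro a0 r0 a1 r1 a2 r2 c ha0 ha1 ha2 hr0 hr1 hr2 _ _ _ e f1 f2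
  have wX : ∀ a r, M.wX uX a r = M.PX a r := by intro a r; unfold Map.wX; rw [huX]; rfl
  have wY : ∀ a r, M.wY uY a r = M.PY a r := by intro a r; unfold Map.wY; rw [huY]; rfl
  unfold Good
  simp only [wX, wY] at f1 f2 ⊢
  have hL := hM.L0
  have hal := hM.al0
  have cle : c ≤ 2 := by
    by_contra hcon
    push Not at hcon
    have : M.L * 3 ≤ M.L * c := Nat.mul_le_mul_left _ hcon
    omega
  have row : ∀ r < M.L, ∃ q, ((r, q) : Row) ∈ T := by
    intro r hr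
    have h1 : r ∈ T.map Prod.fst := by rw [hT]; exact List.mem_range.2 hr
    obtain ⟨p, hp, hpr⟩ := List.mem_map.1 h1
    exact ⟨p.2, by rw [← hpr]; exact hp⟩
  obtain ⟨q0, hq0⟩ := row r0 hr0
  obtain ⟨q1, hq1⟩ := row r1 hr1
  obtain ⟨T1, hT1, hm⟩ := hmain _ hq1
  have s1 := allL_spec _ _ hm _ hT1
  obtain ⟨p2, hp2, s2⟩ := allZ_spec _ _ _ s1 _ hq0
  have hp2' := dropR_mem _ _ _ hp2
  have hp2T : p2 ∈ T := by
    rcases List.mem_append.1 hp2' with h | h <;> exact List.mem_reverse.1 h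
  have hp2L : p2.1 < M.L := by
    have : p2.1 ∈ T.map Prod.fst := List.mem_map_of_mem hp2T
    rw [hT] at this
    exact List.mem_range.1 this
  unfold pairB at s2
  rw [Bool.and_eq_true] at s2
  obtain ⟨s3, s4⟩ := s2
  have s3' := Nat.eq_of_beq_eq_true s3
  have hp2r : p2.1 = r2 := by
    have h1 : (r0 + p2.1) % M.L = (2 * r1) % M.L := s3'
    have h2 : (r0 + r2) % M.L = (2 * r1) % M.L := by
      have h3 : (r0 + r2 + M.L * c) % M.L = (2 * r1 + M.L) % M.L := by rw [e]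
      rwa [Nat.add_mul_mod_self_left, Nat.add_mod_right] at h3
    have h3 : r0 + p2.1 ≡ r0 + r2 [MOD M.L] := h1.trans h2.symm
    have h4 : p2.1 ≡ r2 [MOD M.L] := Nat.ModEq.add_left_cancel' r0 h3
    unfold Nat.ModEq at h4
    rwa [Nat.mod_eq_of_lt hp2L, Nat.mod_eq_of_lt hr2] at h4
  obtain ⟨ρ, q2⟩ := p2
  simp only at hp2r
  subst hp2r
  -- rows
  have R0 := allB_spec _ _ (hrow _ hq0) a0 ha0
  have R1 := allB_spec _ _ (hrow _ hq1) a1 ha1
  have R2 := allB_spec _ _ (hrow _ hp2T) a2 ha2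
  rw [Bool.and_eq_true] at R0 R1 R2
  obtain ⟨k0, hk0, g0⟩ := anyL_spec _ _ R0.1
  obtain ⟨k1, hk1, g1⟩ := anyL_spec _ _ R1.1
  obtain ⟨k2, hk2, g2⟩ := anyL_spec _ _ R2.1
  rw [Bool.and_eq_true, Bool.and_eq_true] at g0 g1 g2
  obtain ⟨g00, _, g02⟩ := g0
  obtain ⟨_, g11, g12⟩ := g1
  obtain ⟨g20, _, g22⟩ := g2
  obtain ⟨t0, ht0, i0⟩ := anyL_spec _ _ g02
  obtain ⟨t1, ht1, i1⟩ := anyL_spec _ _ g12
  obtain ⟨t2, ht2, i2⟩ := anyL_spec _ _ g22
  rw [Bool.and_eq_true, Bool.and_eq_true] at i0 i1 i2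
  have j00 := Nat.eq_of_beq_eq_true i0.1
  have j01 := Nat.eq_of_beq_eq_true i0.2.1
  have j02 := Nat.eq_of_beq_eq_true i0.2.2
  have j10 := Nat.eq_of_beq_eq_true i1.1
  have j11 := Nat.eq_of_beq_eq_true i1.2.1
  have j12 := Nat.eq_of_beq_eq_true i1.2.2
  have j20 := Nat.eq_of_beq_eq_true i2.1
  have j21 := Nat.eq_of_beq_eq_true i2.2.1
  have j22 := Nat.eq_of_beq_eq_true i2.2.2
  have e0 := Nat.eq_of_beq_eq_true g00
  have e1 := Nat.eq_of_beq_eq_true g11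
  have e2 := Nat.eq_of_beq_eq_true g20
  simp only at j01 j02 j11 j12 j21 j22 e0 e1 e2
  -- residues
  have X0 : nz M.al kX M.PX a0 r0 < M.al := Nat.mod_lt _ hal
  have X2 : nz M.al kX M.PX a2 ρ < M.al := Nat.mod_lt _ hal
  have Y0 : nz M.al kY M.PY a0 r0 < M.al := Nat.mod_lt _ hal
  have Y2 : nz M.al kY M.PY a2 ρ < M.al := Nat.mod_lt _ hal
  have AX := nz_ap M.al M.L M.bX kX hkX _ _ _ r0 r1 ρ c e f1
  have AY := nz_ap M.al M.L M.bY kY hkY _ _ _ r0 r1 ρ c e f2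
  obtain ⟨lX, dX⟩ := diff_cases M.al (nz M.al kX M.PX a0 r0) (nz M.al kX M.PX a1 r1)
    (nz M.al kX M.PX a2 ρ) X0 X2 AX
  obtain ⟨lY, dY⟩ := diff_cases M.al (nz M.al kY M.PY a0 r0) (nz M.al kY M.PY a1 r1)
    (nz M.al kY M.PY a2 ρ) Y0 Y2 AY
  set x0 := nz M.al kX M.PX a0 r0 with hx0
  set y0 := nz M.al kY M.PY a0 r0 with hy0
  set x2 := nz M.al kX M.PX a2 ρ with hx2
  set y2 := nz M.al kY M.PY a2 ρ with hy2
  set dx := (2 * nz M.al kX M.PX a1 r1) % M.al + M.al with hdx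
  set dy := (2 * nz M.al kY M.PY a1 r1) % M.al + M.al with hdy
  have hd : k1.2.1 - k0.1 = 2 * M.al * (dx - x0) + (dy - y0) := by
    rw [e0, e1]
    have h1 : 2 * M.al * dx = 2 * M.al * x0 + 2 * M.al * (dx - x0) := by
      rw [← Nat.mul_add]
      congr 1
      omega
    omega
  have hbit : bit q2.2 (k1.2.1 - k0.1) = true ∧ apB M.al (k1.2.1 - k0.1) k2.1 = true := by
    rw [hd]
    have B := R2.2
    simp only [Bool.and_eq_true] at B
    obtain ⟨B1, B2, B3, B4⟩ := B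
    unfold apB
    simp only [Bool.or_eq_true, bq]
    rw [e2]
    rcases dX with dX | dX <;> rcases dY with dY | dY <;> rw [dX, dY]
    · exact ⟨B1, Or.inl rfl⟩
    · exact ⟨B3, Or.inr (Or.inl (by ring))⟩
    · exact ⟨B2, Or.inr (Or.inr (Or.inl (by ring)))⟩
    · exact ⟨B4, Or.inr (Or.inr (Or.inr (by ring)))⟩
  have s5 := allL_spec _ _ (allL_spec _ _ s4 k0 hk0) k1 hk1
  have s6 := imp_spec _ _ s5 hbit.1
  unfold hitB at s6
  have s7 := imp_spec _ _ (allL_spec _ _ s6 k2 hk2) hbit.2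
  have s8 := allL_spec _ _ (allL_spec _ _ (allL_spec _ _ s7 t0 ht0) t1 ht1) t2 ht2
  simp only [j00, j01, j02, j10, j11, j12, j20, j21, j22] at s8
  have hc : (2 * r1 + M.L - (r0 + ρ)) / M.L = c := by
    have : 2 * r1 + M.L - (r0 + ρ) = M.L * c := by omega
    rw [this, Nat.mul_div_cancel_left _ hL]
  rw [hc] at s8
  have zspec : ∀ s0 s1 s2, zV M.L M.al M.bX M.bY PP M.vX M.vY a0 r0 (M.PX a0 r0) (M.PY a0 r0)
      a1 r1 (M.PX a1 r1) (M.PY a1 r1) a2 (M.PX a2 ρ) (M.PY a2 ρ) c s0 s1 s2 = true →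
      s0 + s2 + c = 2 * s1 + 1 ∧
      EqS M.al M.bX M.vX a0 a1 a2 (M.PX a0 r0) (M.PX a1 r1) (M.PX a2 ρ) s0 s1 s2 ∧
      EqS M.al M.bY M.vY a0 a1 a2 (M.PY a0 r0) (M.PY a1 r1) (M.PY a2 ρ) s0 s1 s2 ∧
      Side M PP a0 r0 a1 r1 a2 s0 s1 s2 := by
    intro s0 s1 s2 h
    unfold zV at h
    rw [Bool.and_eq_true, Bool.and_eq_true, Bool.and_eq_true] at h
    exact ⟨Nat.eq_of_beq_eq_true h.1, Nat.eq_of_beq_eq_true h.2.1,
      Nat.eq_of_beq_eq_true h.2.2.1, sideB_spec M PP _ _ _ _ _ _ _ _ h.2.2.2⟩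
  unfold goodV at s8
  rw [Bool.or_eq_true, Bool.or_eq_true, Bool.or_eq_true] at s8
  rcases s8 with h | h | h | h
  · left
    exact ⟨0, by norm_num, 0, by norm_num, 0, by norm_num, zspec _ _ _ h⟩
  · left
    exact ⟨1, by norm_num, 1, by norm_num, 1, by norm_num, zspec _ _ _ h⟩
  · right
    obtain ⟨k, hk, hx⟩ := anyB_spec _ _ h
    unfold xV at hx
    simp only [Bool.and_eq_true, Bool.not_eq_true'] at hx
    obtain ⟨⟨m0, m1, m2⟩, e', f1', f2', f3'⟩ := hx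
    refine ⟨k, hk, ⟨m0, m1, m2⟩, Nat.eq_of_beq_eq_true e', Nat.eq_of_beq_eq_true f1',
      Nat.eq_of_beq_eq_true f2', ?_⟩
    rintro ⟨g1', g2'⟩
    subst g1'
    subst g2'
    rw [Nat.beq_refl] at f3'
    exact absurd f3' (by decide)
  · left
    obtain ⟨s0, hs0, h⟩ := anyB_spec _ _ h
    obtain ⟨s1, hs1, h⟩ := anyB_spec _ _ h
    obtain ⟨s2, hs2, h⟩ := anyB_spec _ _ h
    exact ⟨s0, hs0, s1, hs1, s2, hs2, zspec _ _ _ h⟩

end Pool.Agent.H549R3.M2
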